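import Pool.Agent.N988.EA.Stm

/-!
# Project EA, part G: the Gibbs recursion on the diamond lattice
-/

set_option autoImplicit false

namespace Pool.Agent.N271.EA

open Pool.Agent.N988.EA

variable {b n : ℕ}

/-- the boundary condition of the half `h` of a branch with middle spin `m` -/
def T (τ : Bool → Bool) (h m : Bool) : Bool → Bool := fun t => if t = h then τ t else m

/-- the middle spin of a branch -/
def mid (σ : Vert b (n + 1) → Bool) (i : Fin b) : Bool := σ (Sum.inl i : Vert b (n + 1))

/-- the interior spins of the half of a branch -/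
def inn (σ : Vert b (n + 1) → Bool) (i : Fin b) (h : Bool) : Vert b n → Bool :=
  fun x => σ (Sum.inr (i, h, x) : Vert b (n + 1))

theorem elim_emb (τ : Bool → Bool) (σ : Vert b (n + 1) → Bool) (i : Fin b) (h : Bool)
    (p : Pt b n) : Sum.elim τ σ (emb i h p) = Sum.elim (T τ h (mid σ i)) (inn σ i h) p := by
  rcases p with s | x
  · by_cases hs : s = h
    · subst hs
      simp [emb, T]
    · simp only [emb, T, if_neg hs, Sum.elim_inl]
      rfl
  · rfl

/-- the action is the sum of the actions of the halves -/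
theorem act_succ (J : Edge b (n + 1) → ℝ) (τ : Bool → Bool) (σ : Vert b (n + 1) → Bool) :
    act J τ σ = ∑ i : Fin b, ∑ h : Bool,
      act (fun e => J (i, h, e)) (T τ h (mid σ i)) (inn σ i h) := by
  have h1 : act J τ σ = ∑ e : Fin b × Bool × Edge b n, J e *
      sg (Sum.elim τ σ (emb e.1 e.2.1 (bd n e.2.2 false))) *
      sg (Sum.elim τ σ (emb e.1 e.2.1 (bd n e.2.2 true))) :=
    Fintype.sum_equiv (Equiv.refl _) _ _ fun e => rfl
  rw [h1, Fintype.sum_prod_type]
  refine Finset.sum_congr rfl fun i _ => ?_
  rw [Fintype.sum_prod_type]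
  refine Finset.sum_congr rfl fun h _ => ?_
  unfold act
  refine Finset.sum_congr rfl fun e _ => ?_
  simp only [elim_emb]

/-- configurations of the branches -/
def eqv : (Vert b (n + 1) → Bool) ≃ (Fin b → Bool × (Bool → (Vert b n → Bool))) where
  toFun σ i := (mid σ i, inn σ i)
  invFun g := fun v : Fin b ⊕ (Fin b × Bool × Vert b n) =>
    Sum.elim (fun i => (g i).1) (fun p => (g p.1).2 p.2.1 p.2.2) v
  left_inv σ := by
    funext v
    change Fin b ⊕ (Fin b × Bool × Vert b n) at v
    rcases v with i | ⟨i, h, x⟩ <;> rfl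
  right_inv g := rfl

/-- the sum over the configurations factorizes -/
theorem fact (J : Edge b (n + 1) → ℝ) (τ : Bool → Bool) (φ : Fin b → Bool → ℝ)
    (Φ : Fin b → Bool → (Vert b n → Bool) → ℝ) :
    ∑ σ : Vert b (n + 1) → Bool, ((∏ i, φ i (mid σ i)) * ∏ i, ∏ h, Φ i h (inn σ i h)) *
      Real.exp (act J τ σ) =
    ∏ i : Fin b, ∑ m : Bool, φ i m * ∏ h : Bool, ∑ ρ : Vert b n → Bool, Φ i h ρ *
      Real.exp (act (fun e => J (i, h, e)) (T τ h m) ρ) := by
  have h1 : ∑ σ : Vert b (n + 1) → Bool, ((∏ i, φ i (mid σ i)) * ∏ i, ∏ h, Φ i h (inn σ i h)) *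
      Real.exp (act J τ σ) = ∑ g : Fin b → Bool × (Bool → (Vert b n → Bool)),
      ∏ i : Fin b, (φ i (g i).1 * ∏ h : Bool, (Φ i h ((g i).2 h) *
        Real.exp (act (fun e => J (i, h, e)) (T τ h (g i).1) ((g i).2 h)))) := by
    refine Fintype.sum_equiv eqv _ _ fun σ => ?_
    rw [act_succ, Real.exp_sum]
    simp only [Real.exp_sum, Finset.prod_mul_distrib]
    rw [mul_assoc]
    rfl
  rw [h1]
  have h2 := Finset.prod_univ_sum (fun _ : Fin b => (Finset.univ : Finset
    (Bool × (Bool → (Vert b n → Bool))))) (fun i g => (φ i g.1 * ∏ h : Bool, (Φ i h (g.2 h) *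
        Real.exp (act (fun e => J (i, h, e)) (T τ h g.1) (g.2 h)))))
  rw [Fintype.piFinset_univ] at h2
  rw [← h2]
  refine Finset.prod_congr rfl fun i _ => ?_
  rw [Fintype.sum_prod_type]
  refine Finset.sum_congr rfl fun m _ => ?_
  simp only
  rw [← Finset.mul_sum]
  congr 1
  have h3 := Finset.prod_univ_sum (fun _ : Bool => (Finset.univ : Finset (Vert b n → Bool)))
    (fun h ρ => Φ i h ρ * Real.exp (act (fun e => J (i, h, e)) (T τ h m) ρ))
  rw [Fintype.piFinset_univ] at h3
  exact h3.symm

theorem Z_pos (J : Edge b n → ℝ) (τ : Bool → Bool) : 0 < Z J τ :=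
  Finset.sum_pos (fun _ _ => Real.exp_pos _) Finset.univ_nonempty

/-- the weight of the middle spin `m` of the branch `i` -/
noncomputable def wt (J : Edge b (n + 1) → ℝ) (τ : Bool → Bool) (i : Fin b) (m : Bool) : ℝ :=
  ∏ h : Bool, Z (fun e => J (i, h, e)) (T τ h m)

theorem Z_succ (J : Edge b (n + 1) → ℝ) (τ : Bool → Bool) :
    Z J τ = ∏ i : Fin b, ∑ m : Bool, wt J τ i m := by
  have h := fact J τ (fun _ _ => 1) (fun _ _ _ => 1)
  simp only [Finset.prod_const_one, one_mul] at h
  exact h

/-- the field on the middle spin -/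
noncomputable def fld (J : Edge b (n + 1) → ℝ) (τ : Bool → Bool) (i : Fin b) : ℝ :=
  (K n fun e => J (i, false, e)) * sg (τ false) + (K n fun e => J (i, true, e)) * sg (τ true)

theorem wt_eq (hZ : ∀ J : Edge b n → ℝ, ∃ C : ℝ, 0 < C ∧ ∀ τ : Bool → Bool,
    Z J τ = C * Real.exp (K n J * sg (τ false) * sg (τ true)))
    (J : Edge b (n + 1) → ℝ) (i : Fin b) : ∃ C : ℝ, 0 < C ∧ ∀ (τ : Bool → Bool) (m : Bool),
      wt J τ i m = C * Real.exp (sg m * fld J τ i) := by
  obtain ⟨C₁, hC₁, h1⟩ := hZ (fun e => J (i, false, e))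
  obtain ⟨C₂, hC₂, h2⟩ := hZ (fun e => J (i, true, e))
  refine ⟨C₂ * C₁, mul_pos hC₂ hC₁, fun τ m => ?_⟩
  unfold wt fld
  rw [Fintype.prod_bool, h1, h2]
  have e1 : T τ true m false = m := by simp [T]
  have e2 : T τ true m true = τ true := by simp [T]
  have e3 : T τ false m false = τ false := by simp [T]
  have e4 : T τ false m true = m := by simp [T]
  rw [e1, e2, e3, e4, mul_mul_mul_comm, ← Real.exp_add]
  congr 2
  ring

theorem sum_wt {C x : ℝ} : ∑ m : Bool, C * Real.exp (sg m * x) = C * (2 * Real.cosh x) := by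
  rw [Fintype.sum_bool, Real.cosh_eq]
  simp only [sg, if_true]
  simp
  ring

theorem two_cosh (a c : ℝ) : ∃ C : ℝ, 0 < C ∧ ∀ s t : Bool,
    2 * Real.cosh (a * sg s + c * sg t) = C * Real.exp (ph a c * sg s * sg t) := by
  have h1 : 0 < Real.cosh (a + c) := Real.cosh_pos _
  have h2 : 0 < Real.cosh (a - c) := Real.cosh_pos _
  refine ⟨2 * √(Real.cosh (a + c) * Real.cosh (a - c)), by positivity, ?_⟩
  have hp : Real.exp (ph a c) = √(Real.cosh (a + c) / Real.cosh (a - c)) := by
    unfold ph
    rw [Real.exp_half, Real.exp_log (by positivity)]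
  have hm : Real.exp (-ph a c) = √(Real.cosh (a - c) / Real.cosh (a + c)) := by
    rw [Real.exp_neg, hp, ← Real.sqrt_inv, inv_div]
  have e1 : √(Real.cosh (a + c) * Real.cosh (a - c)) * Real.exp (ph a c) = Real.cosh (a + c) := by
    rw [hp, ← Real.sqrt_mul (by positivity)]
    have : Real.cosh (a + c) * Real.cosh (a - c) * (Real.cosh (a + c) / Real.cosh (a - c)) =
        Real.cosh (a + c) ^ 2 := by field_simp
    rw [this, Real.sqrt_sq h1.le]
  have e2 : √(Real.cosh (a + c) * Real.cosh (a - c)) * Real.exp (-ph a c) = Real.cosh (a - c) := by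
    rw [hm, ← Real.sqrt_mul (by positivity)]
    have : Real.cosh (a + c) * Real.cosh (a - c) * (Real.cosh (a - c) / Real.cosh (a + c)) =
        Real.cosh (a - c) ^ 2 := by field_simp
    rw [this, Real.sqrt_sq h2.le]
  intro s t
  rw [mul_assoc 2 (√_) _]
  congr 1
  have hsT : sg true = 1 := by simp [sg]
  have hsF : sg false = -1 := by simp [sg]
  rcases s with _ | _ <;> rcases t with _ | _ <;> simp only [hsT, hsF]
  · rw [show a * -1 + c * -1 = -(a + c) by ring, Real.cosh_neg,
      show ph a c * -1 * -1 = ph a c by ring, e1]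
  · rw [show a * -1 + c * 1 = -(a - c) by ring, Real.cosh_neg,
      show ph a c * -1 * 1 = -ph a c by ring, e2]
  · rw [show a * 1 + c * -1 = a - c by ring, show ph a c * 1 * -1 = -ph a c by ring, e2]
  · rw [mul_one, mul_one, mul_one, mul_one, e1]

/-- the partition function -/
theorem Z_form (b : ℕ) : ∀ (n : ℕ) (J : Edge b n → ℝ), ∃ C : ℝ, 0 < C ∧ ∀ τ : Bool → Bool,
    Z J τ = C * Real.exp (K n J * sg (τ false) * sg (τ true)) := by
  intro n
  induction n with
  | zero =>
    intro J
    refine ⟨1, one_pos, fun τ => ?_⟩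
    have : IsEmpty (Vert b 0) := inferInstanceAs (IsEmpty Empty)
    unfold Z
    rw [Fintype.sum_unique, one_mul]
    congr 1
    unfold act
    have h1 : ∀ F : Edge b 0 → ℝ, ∑ e : Edge b 0, F e = F () := by
      intro F
      have h2 : ∀ G : Unit → ℝ, (∀ e : Edge b 0, F e = G e) → ∑ e : Edge b 0, F e = G () := by
        intro G hG
        have h3 : ∑ e : Edge b 0, F e = ∑ e : Unit, G e :=
          Fintype.sum_equiv (Equiv.refl _) _ _ fun e => hG e
        rw [h3, Fintype.sum_unique]
      exact h2 (fun u => F u) fun e => rfl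
    rw [h1]
    rfl
  | succ n ih =>
    intro J
    have h1 := wt_eq ih J
    choose C hC hw using h1
    have h2 : ∀ i : Fin b, ∃ C : ℝ, 0 < C ∧ ∀ s t : Bool,
      2 * Real.cosh ((K n fun e => J (i, false, e)) * sg s + (K n fun e => J (i, true, e)) * sg t) =
        C * Real.exp (ph (K n fun e => J (i, false, e)) (K n fun e => J (i, true, e)) * sg s *
          sg t) := fun i => two_cosh _ _
    choose C' hC' hw' using h2
    refine ⟨∏ i, (C i * C' i), Finset.prod_pos fun i _ => mul_pos (hC i) (hC' i), fun τ => ?_⟩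
    rw [Z_succ]
    have h3 : K (n + 1) J * sg (τ false) * sg (τ true) = ∑ i : Fin b,
        ph (K n fun e => J (i, false, e)) (K n fun e => J (i, true, e)) * sg (τ false) *
          sg (τ true) := by
      rw [K, Finset.sum_mul, Finset.sum_mul]
    rw [h3, Real.exp_sum, ← Finset.prod_mul_distrib]
    refine Finset.prod_congr rfl fun i _ => ?_
    simp only [hw]
    rw [sum_wt, fld, hw']
    ring

theorem t_G : S_G := by
  intro b
  refine ⟨Z_form b, ?_, ?_⟩
  · intro n J τ i
    have h1 := wt_eq (Z_form b n) J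
    choose C hC hw using h1
    have h2 := fact J τ (fun j m => if j = i then sg m else 1) (fun _ _ _ => 1)
    simp only [Finset.prod_const_one, mul_one, one_mul] at h2
    have h3 : ∑ σ : Vert b (n + 1) → Bool, sg (σ (Sum.inl i : Vert b (n + 1))) *
        Real.exp (act J τ σ) = ∏ j : Fin b, ∑ m : Bool, (if j = i then sg m else 1) *
          wt J τ j m := by
      rw [← show _ = ∏ j : Fin b, ∑ m : Bool, (if j = i then sg m else 1) *
          wt J τ j m from h2]
      refine Finset.sum_congr rfl fun σ _ => ?_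
      congr 1
      rw [Finset.prod_ite_eq' Finset.univ i (fun j => sg (mid σ j)), if_pos (Finset.mem_univ i)]
      rfl
    unfold mag
    rw [h3, Z_succ, ← Finset.prod_div_distrib, ← Finset.prod_erase_mul _ _ (Finset.mem_univ i)]
    have h4 : ∀ j ∈ Finset.univ.erase i, (∑ m : Bool, (if j = i then sg m else 1) * wt J τ j m) /
        (∑ m : Bool, wt J τ j m) = 1 := by
      intro j hj
      have hj' : j ≠ i := Finset.ne_of_mem_erase hj
      simp only [if_neg hj', one_mul]
      refine div_self ?_
      simp only [hw]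
      rw [sum_wt]
      have := hC j
      have := Real.cosh_pos (fld J τ j)
      positivity
    rw [Finset.prod_congr rfl h4, Finset.prod_const_one, one_mul]
    simp only [if_true, hw]
    rw [sum_wt, Fintype.sum_bool, Real.tanh_eq_sinh_div_cosh, Real.sinh_eq]
    have h5 := hC i
    have h6 := Real.cosh_pos (fld J τ i)
    change _ = (Real.exp (fld J τ i) - Real.exp (-fld J τ i)) / 2 / Real.cosh (fld J τ i)
    simp only [sg, if_true]
    rw [div_eq_div_iff (by positivity) (by positivity)]
    simp
    ring
  · intro n J τ i h x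
    have h1 := wt_eq (Z_form b n) J
    choose C hC hw using h1
    have h2 := fact J τ (fun _ _ => 1) (fun j k ρ => if j = i ∧ k = h then sg (ρ x) else 1)
    simp only [Finset.prod_const_one, one_mul] at h2
    -- the numerator
    have h3 : ∑ σ : Vert b (n + 1) → Bool, sg (σ (Sum.inr (i, h, x) : Vert b (n + 1))) *
        Real.exp (act J τ σ) = ∏ j : Fin b, ∑ m : Bool, (if j = i then
          mag (fun e => J (i, h, e)) (T τ h m) x else 1) * wt J τ j m := by
      have e1 : ∏ j : Fin b, ∑ m : Bool, ∏ k : Bool, ∑ ρ : Vert b n → Bool,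
          (if j = i ∧ k = h then sg (ρ x) else 1) *
            Real.exp (act (fun e => J (j, k, e)) (T τ k m) ρ) =
          ∏ j : Fin b, ∑ m : Bool, (if j = i then
          mag (fun e => J (i, h, e)) (T τ h m) x else 1) * wt J τ j m := by
        refine Finset.prod_congr rfl fun j _ => Finset.sum_congr rfl fun m _ => ?_
        by_cases hj : j = i
        · subst hj
          simp only [true_and, if_true]
          unfold wt
          rw [← Finset.mul_prod_erase _ _ (Finset.mem_univ h),
            ← Finset.mul_prod_erase _ _ (Finset.mem_univ h), ← mul_assoc]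
          congr 1
          · simp only [if_true]
            unfold mag
            rw [div_mul_cancel₀ _ (Z_pos _ _).ne']
          · refine Finset.prod_congr rfl fun k hk => ?_
            have hk' : k ≠ h := Finset.ne_of_mem_erase hk
            simp only [if_neg hk', one_mul]
            rfl
        · simp only [hj, false_and, if_false, one_mul]
          rfl
      rw [← e1, ← h2]
      refine Finset.sum_congr rfl fun σ _ => ?_
      congr 1
      have e2 : ∀ j : Fin b, (∏ k : Bool, if j = i ∧ k = h then sg (inn σ j k x) else 1) =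
          if j = i then sg (inn σ i h x) else 1 := by
        intro j
        by_cases hj : j = i
        · subst hj
          simp only [true_and, if_true]
          rw [Finset.prod_ite_eq' Finset.univ h (fun k => sg (inn σ j k x)),
            if_pos (Finset.mem_univ h)]
        · simp [hj]
      simp only [e2]
      rw [Finset.prod_ite_eq' Finset.univ i (fun _ => sg (inn σ i h x)),
        if_pos (Finset.mem_univ i)]
      rfl
    have h30 : mag J τ (Sum.inr (i, h, x) : Vert b (n + 1)) =
        (∑ σ : Vert b (n + 1) → Bool, sg (σ (Sum.inr (i, h, x) : Vert b (n + 1))) *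
        Real.exp (act J τ σ)) / Z J τ := rfl
    rw [h30, h3, Z_succ, ← Finset.prod_div_distrib,
      ← Finset.prod_erase_mul _ _ (Finset.mem_univ i)]
    have h4 : ∀ j ∈ Finset.univ.erase i, (∑ m : Bool, (if j = i then
          mag (fun e => J (i, h, e)) (T τ h m) x else 1) * wt J τ j m) /
        (∑ m : Bool, wt J τ j m) = 1 := by
      intro j hj
      have hj' : j ≠ i := Finset.ne_of_mem_erase hj
      simp only [if_neg hj', one_mul]
      refine div_self ?_
      simp only [hw]
      rw [sum_wt]
      have := hC j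
      have := Real.cosh_pos (fld J τ j)
      positivity
    rw [Finset.prod_congr rfl h4, Finset.prod_const_one, one_mul]
    simp only [if_true, hw]
    rw [sum_wt, Finset.sum_div]
    refine Finset.sum_congr rfl fun m _ => ?_
    have h5 := hC i
    have h6 := Real.cosh_pos (fld J τ i)
    change mag (fun e => J (i, h, e)) (T τ h m) x * (C i * Real.exp (sg m * fld J τ i)) /
      (C i * (2 * Real.cosh (fld J τ i))) = (1 + sg m * Real.tanh (fld J τ i)) / 2 *
        mag (fun e => J (i, h, e)) (T τ h m) x
    have h7 : Real.exp (sg m * fld J τ i) = Real.cosh (fld J τ i) +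
        sg m * Real.sinh (fld J τ i) := by
      rcases m with _ | _
      · simp only [sg]
        rw [Real.cosh_eq, Real.sinh_eq]
        simp
        ring
      · simp only [sg, if_true]
        rw [one_mul, one_mul, Real.cosh_eq, Real.sinh_eq]
        ring
    rw [h7, Real.tanh_eq_sinh_div_cosh]
    field_simp

end Pool.Agent.N271.EA
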