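import Pool.Agent.N212.KS.Stm

/-!
# Intersections of good sets are good (KS/INT)
-/

set_option autoImplicit false

namespace Pool.Agent.N271.KS

open Pool.Agent.N212.KS

/-- one half of the comparison -/
lemma half (H S A B A' : ℝ) (hA : 0 < A) (hA' : 0 < A') (h1 : 1 ≤ H) (h : H ≤ A * S + B) :
    H ≤ (A + A') * S + (B + A' * (|1 - B| / A)) := by
  have h2 : -(|1 - B| / A) ≤ S := by
    rw [neg_le, ← sub_nonneg]
    have h3 : 0 ≤ |1 - B| + A * S := by
      have := neg_abs_le (1 - B)
      have := le_abs_self (1 - B)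
      linarith
    have h4 : |1 - B| / A - -S = (|1 - B| + A * S) / A := by
      field_simp
      ring
    rw [h4]
    positivity
  have h5 : 0 ≤ A' * (S + |1 - B| / A) := mul_nonneg hA'.le (by linarith)
  calc H ≤ A * S + B := h
    _ ≤ A * S + B + A' * (S + |1 - B| / A) := by linarith
    _ = _ := by ring

universe u v z

theorem t_INT : S_INT.{u, v, z} := by
  intro X N ι _ _ _ _ D ℓ Z Z' hZ hZ'
  obtain ⟨h1, h2, A, B, hA, h3⟩ := hZ
  obtain ⟨h1', h2', A', B', hA', h3'⟩ := hZ'
  refine ⟨h1.inter h1', ?_, A + A', max (B + A' * (|1 - B| / A)) (B' + A * (|1 - B'| / A')),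
    by positivity, ?_⟩
  · intro h
    apply h2
    rw [Set.eq_univ_iff_forall] at h ⊢
    exact fun x => (h x).1
  · intro x hx
    by_cases hxZ : x ∈ Z
    · have hxZ' : x ∉ Z' := fun hx' => hx ⟨hxZ, hx'⟩
      have h4 := half (D.H x) (∑ i, D.h (ℓ i) x) A' B' A hA' hA (D.one_le_H x) (h3' x hxZ')
      have h5 := le_max_right (B + A' * (|1 - B| / A)) (B' + A * (|1 - B'| / A'))
      rw [add_comm A A']
      linarith
    · have h4 := half (D.H x) (∑ i, D.h (ℓ i) x) A B A' hA hA' (D.one_le_H x) (h3 x hxZ)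
      have h5 := le_max_left (B + A' * (|1 - B| / A)) (B' + A * (|1 - B'| / A'))
      linarith

end Pool.Agent.N271.KS
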