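import Mathlib
import Pool.Agent.N585.PT.Defs

/-!
# Project PT (helper585), PT/2: the snake (helper271)
-/

set_option autoImplicit false

namespace Pool.Agent.N271.PTSnake

open Pool.Agent.N585.PT

/-- the row -/
def r (A : Finset ℕ) : ℕ → ℕ
  | 0 => 0
  | i + 1 => if i ∈ A then r A i + 1 else r A i

/-- the column -/
def X (A : Finset ℕ) : ℕ → ℤ
  | 0 => 0
  | i + 1 => if i ∈ A then X A i else X A i + (-1) ^ r A i

/-- the snake -/
def P (A : Finset ℕ) (i : ℕ) : ℤ × ℤ := (X A i, (r A i : ℤ))

variable (A : Finset ℕ)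

theorem r_in {i : ℕ} (h : i ∈ A) : r A (i + 1) = r A i + 1 := by simp [r, h]
theorem r_out {i : ℕ} (h : i ∉ A) : r A (i + 1) = r A i := by simp [r, h]
theorem X_in {i : ℕ} (h : i ∈ A) : X A (i + 1) = X A i := by simp [X, h]
theorem X_out {i : ℕ} (h : i ∉ A) : X A (i + 1) = X A i + (-1) ^ r A i := by simp [X, h]

theorem r_mono : Monotone (r A) := by
  refine monotone_nat_of_le_succ fun i => ?_
  by_cases h : i ∈ A
  · rw [r_in A h]; omega
  · rw [r_out A h]

theorem r_lt {i k j : ℕ} (hk : k ∈ A) (h1 : i ≤ k) (h2 : k < j) : r A i < r A j := by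
  have h3 := r_mono A h1
  have h4 := r_mono A (show k + 1 ≤ j from h2)
  rw [r_in A hk] at h4
  omega

theorem run (i m : ℕ) (h : ∀ k < m, i + k ∉ A) :
    r A (i + m) = r A i ∧ X A (i + m) = X A i + m * (-1) ^ r A i := by
  induction m with
  | zero => simp
  | succ m ih =>
    obtain ⟨h1, h2⟩ := ih (fun k hk => h k (by omega))
    have h3 := h m (by omega)
    rw [← add_assoc, r_out A h3, X_out A h3, h1, h2]
    refine ⟨rfl, ?_⟩
    push_cast
    ring

theorem sgn (k : ℕ) : ((-1 : ℤ) ^ k) = 1 ∨ ((-1 : ℤ) ^ k) = -1 := neg_one_pow_eq_or ℤ k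

theorem step_in {i : ℕ} (h : i ∈ A) : P A (i + 1) - P A i = (0, 1) := by
  unfold P
  rw [r_in A h, X_in A h]
  ext <;> simp

theorem step_out {i : ℕ} (h : i ∉ A) : P A (i + 1) - P A i = ((-1) ^ r A i, 0) := by
  unfold P
  rw [r_out A h, X_out A h]
  ext <;> simp

theorem straight {i j : ℕ} (h : ∀ k, i ≤ k → k < j → k ∉ A) : Straight (P A) i j := by
  have hr : ∀ k, i ≤ k → k < j → P A (k + 1) - P A k = ((-1) ^ r A i, 0) := by
    intro k h1 h2
    rw [step_out A (h k h1 h2)]
    obtain ⟨m, rfl⟩ := Nat.exists_eq_add_of_le h1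
    rw [(run A i m (fun k hk => h _ (by omega) (by omega))).1]
  intro k l h1 h2 h3 h4
  rw [hr k h1 h2, hr l h3 h4]

theorem stmSnake : StmSnake := by
  intro n A t hA
  refine ⟨P A, ⟨?_, ?_⟩, ?_⟩
  · intro i _
    by_cases h : i ∈ A
    · left
      unfold P
      rw [r_in A h, X_in A h]
      refine ⟨rfl, ?_⟩
      push_cast
      simp
    · right
      unfold P
      rw [r_out A h, X_out A h]
      refine ⟨rfl, ?_⟩
      rcases sgn (r A i) with h1 | h1 <;> rw [h1] <;> simp
  · have key : ∀ i j : ℕ, i < j → P A i = P A j → False := by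
      intro i j hij h
      unfold P at h
      rw [Prod.ext_iff] at h
      obtain ⟨h1, h2⟩ := h
      have h2'' : (r A i : ℤ) = (r A j : ℤ) := h2
      have h2' : r A i = r A j := by exact_mod_cast h2''
      have hno : ∀ k, i ≤ k → k < j → k ∉ A := by
        intro k hk1 hk2 hk
        have := r_lt A hk hk1 hk2
        omega
      obtain ⟨m, rfl⟩ := Nat.exists_eq_add_of_le hij.le
      have h3 := (run A i m (fun k hk => hno _ (by omega) (by omega))).2
      have h1' : X A i = X A (i + m) := h1
      rw [h3] at h1'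
      have hm : (1 : ℤ) ≤ m := by
        have : 1 ≤ m := by omega
        exact_mod_cast this
      rcases sgn (r A i) with h4 | h4 <;> rw [h4] at h1' <;> omega
    intro i j _ _ h
    rcases lt_trichotomy i j with h1 | h1 | h1
    · exact (key i j h1 h).elim
    · exact h1
    · exact (key j i h1 h.symm).elim
  · intro a ha
    obtain ⟨h1, h2, h3, h4⟩ := hA a ha
    have hup : ∀ k, a + 1 ≤ k → k < a + 1 + t a → k ∉ A := by
      intro k hk1 hk2 hk
      have := ((hA k hk).2.2.2 a ha (by omega)).1
      omega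
    have hdn : ∀ k, a - t a ≤ k → k < a → k ∉ A := by
      intro k hk1 hk2 hk
      have := (h4 k hk hk2).2
      omega
    refine ⟨by omega, by omega, ?_, ?_, h2, straight A hdn, h3, straight A hup, ?_⟩
    · intro hs
      have h5 := hs (a - 1) a le_rfl (by omega) (by omega) (by omega)
      rw [step_in A ha, step_out A (hdn (a - 1) (by omega) (by omega))] at h5
      have h6 := (Prod.ext_iff.mp h5).2
      simp at h6
    · intro hs
      have h5 := hs a (a + 1) le_rfl (by omega) (by omega) (by omega)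
      rw [step_in A ha, step_out A (hup (a + 1) (by omega) (by omega))] at h5
      have h6 := (Prod.ext_iff.mp h5).2
      simp at h6
    · obtain ⟨b, hb⟩ : ∃ b, a = b + t a := ⟨a - t a, by omega⟩
      have hb' : a - t a = b := by omega
      have e1 := run A b (t a) (fun k hk => hdn _ (by omega) (by omega))
      have e2 := run A (a + 1) (t a) (fun k hk => hup _ (by omega) (by omega))
      rw [← hb] at e1
      rw [r_in A ha, X_in A ha] at e2
      left
      unfold P
      rw [hb', e2.1, e2.2, e1.1, e1.2]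
      constructor
      · show X A b = X A b + (t a : ℤ) * (-1) ^ r A b + (t a : ℤ) * (-1) ^ (r A b + 1)
        ring
      · show |(r A b : ℤ) - ((r A b + 1 : ℕ) : ℤ)| = 1
        push_cast
        simp

end Pool.Agent.N271.PTSnake
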