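import Pool.Agent.N661.QB.Stm

/-!
# Project QB (helper661), subtask TR: truncation of the two point functions (helper271)

The lemmas on the maps `mv` are copied from `Pool/Agent/N645/BHISOH.lean` (helper645), the lemma on
products with test functions from `Pool/Agent/Y265/RW/U.lean`.
-/

set_option autoImplicit false
open MeasureTheory Filter Topology Complex
open scoped ContDiff

namespace Pool.Agent.N271.QBTR

open Pool.Agent.W745.RW (TF)
open Pool.Agent.N661.BH (HP mv)
open Pool.Agent.N661.QB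

noncomputable section

lemma mv_cont (s : ℝ) (v : ℂ) : Continuous (mv s v) := by
  unfold mv
  fun_prop

lemma geo {B : Set ℂ} (hB : IsOpen B) {φ : ℂ → ℝ} (hφ : TF B φ) :
    ∃ U K' : Set ℂ, IsOpen U ∧ tsupport φ ⊆ U ∧ IsCompact K' ∧ K' ⊆ B ∧ U ⊆ K' ∧
      ∃ δ : ℝ, 0 < δ ∧ δ ≤ 1 / 2 ∧ ∀ z ∈ U, ∀ (s : ℝ) (v : ℂ), |s| * ‖v‖ ≤ δ →
        mv s v z ∈ K' := by
  have hK : IsCompact (tsupport φ) := hφ.2.1
  obtain ⟨δ0, hδ0, h0⟩ := hK.exists_cthickening_subset_open hB hφ.2.2
  have hK' : IsCompact (Metric.cthickening δ0 (tsupport φ)) := hK.cthickening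
  obtain ⟨R, hR⟩ := hK'.isBounded.exists_norm_le
  have hU : Metric.thickening (δ0 / 2) (tsupport φ) ⊆ Metric.cthickening δ0 (tsupport φ) :=
    (Metric.thickening_subset_cthickening _ _).trans (Metric.cthickening_mono (by linarith) _)
  refine ⟨Metric.thickening (δ0 / 2) (tsupport φ), Metric.cthickening δ0 (tsupport φ),
    Metric.isOpen_thickening, Metric.self_subset_thickening (by positivity) _, hK', h0, hU,
    min (1 / 2) (δ0 / (2 * (|R| + 1))), by positivity, min_le_left _ _, ?_⟩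
  intro z hz s v hs
  have hzR := hR z (hU hz)
  rw [Metric.mem_thickening_iff] at hz
  obtain ⟨x, hx, hzx⟩ := hz
  refine Metric.thickening_subset_cthickening _ _ ?_
  rw [Metric.mem_thickening_iff]
  refine ⟨x, hx, ?_⟩
  have h1 : dist (mv s v z) z ≤ δ0 / 2 := by
    unfold mv
    rw [dist_eq_norm, add_sub_cancel_left, norm_mul, Complex.norm_real, Real.norm_eq_abs, abs_mul]
    have h2 : |z.im| ≤ |R| + 1 := by
      have := (Complex.abs_im_le_norm z).trans hzR
      have := le_abs_self R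
      linarith
    have h3 : |s| * ‖v‖ ≤ δ0 / (2 * (|R| + 1)) := hs.trans (min_le_right _ _)
    calc |s| * |z.im| * ‖v‖ = (|s| * ‖v‖) * |z.im| := by ring
      _ ≤ δ0 / (2 * (|R| + 1)) * (|R| + 1) :=
          mul_le_mul h3 h2 (abs_nonneg _) (by positivity)
      _ = δ0 / 2 := by
          have : |R| + 1 ≠ 0 := by positivity
          field_simp
  calc dist (mv s v z) x ≤ dist (mv s v z) z + dist z x := dist_triangle _ _ _
    _ < δ0 := by linarith

/-- `mv` as a linear map -/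
def L (s : ℝ) (v : ℂ) : ℂ →ₗ[ℝ] ℂ where
  toFun := mv s v
  map_add' x y := by
    unfold mv
    simp only [Complex.add_im]
    push_cast
    ring
  map_smul' c x := by
    unfold mv
    simp only [Complex.real_smul, Complex.mul_im, Complex.ofReal_re, Complex.ofReal_im,
      RingHom.id_apply]
    push_cast
    ring

lemma L_det (s : ℝ) (v : ℂ) : LinearMap.det (L s v) = 1 + s * v.im := by
  rw [← LinearMap.det_toMatrix Complex.basisOneI, Matrix.det_fin_two]
  simp [LinearMap.toMatrix_apply, L, mv]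

lemma cov {s : ℝ} {v : ℂ} (hd : 1 / 2 ≤ 1 + s * v.im) {g : ℂ → ℝ} (hg : Integrable g)
    (h0 : ∀ z, 0 ≤ g z) :
    Integrable (fun z => g (mv s v z)) ∧ ∫ z, g (mv s v z) ≤ 2 * ∫ z, g z := by
  have hdet : LinearMap.det (L s v) ≠ 0 := by
    rw [L_det]; linarith
  have hm := Measure.map_linearMap_addHaar_eq_smul_addHaar (volume : Measure ℂ) hdet
  have hmeas : Measurable (L s v) := (mv_cont s v).measurable
  have hi : Integrable g (Measure.map (L s v) volume) := by
    rw [hm]; exact hg.smul_measure ENNReal.ofReal_ne_top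
  refine ⟨(integrable_map_measure hi.1 hmeas.aemeasurable).1 hi, ?_⟩
  have h1 : ∫ z, g (mv s v z) = ∫ y, g y ∂(Measure.map (L s v) volume) :=
    (integral_map hmeas.aemeasurable hi.1).symm
  rw [h1, hm, integral_smul_measure, ENNReal.toReal_ofReal (abs_nonneg _), L_det, smul_eq_mul]
  refine mul_le_mul_of_nonneg_right ?_ (integral_nonneg h0)
  rw [abs_of_nonneg (inv_nonneg.2 (by linarith))]
  rw [inv_le_comm₀ (by linarith) (by norm_num)]
  linarith

lemma det_ge {s δ : ℝ} {v : ℂ} (hδ : δ ≤ 1 / 2) (hs : |s| * ‖v‖ ≤ δ) : 1 / 2 ≤ 1 + s * v.im := by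
  have h1 : |s * v.im| ≤ δ := by
    rw [abs_mul]
    exact (mul_le_mul_of_nonneg_left (Complex.abs_im_le_norm v) (abs_nonneg _)).trans hs
  have := neg_abs_le (s * v.im)
  linarith

lemma cont_mulr {B : Set ℂ} (hB : IsOpen B) {ψ : ℂ → ℝ} (hψ : TF B ψ) {F : ℂ → ℝ}
    (hF : ContinuousOn F B) : Continuous (fun z => ψ z * F z) := by
  rw [continuous_iff_continuousAt]
  intro z
  by_cases hz : z ∈ B
  · exact (hψ.1.continuous).continuousAt.mul
      (hF.continuousAt (hB.mem_nhds hz))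
  · have hz' : z ∉ tsupport ψ := fun h => hz (hψ.2.2 h)
    have h1 : (fun z => ψ z * F z) =ᶠ[𝓝 z] fun _ => 0 := by
      filter_upwards [notMem_tsupport_iff_eventuallyEq.1 hz'] with w hw
      rw [hw]; simp
    exact (continuousAt_const).congr h1.symm

lemma int_mulr {B : Set ℂ} (hB : IsOpen B) {ψ : ℂ → ℝ} (hψ : TF B ψ) {F : ℂ → ℝ}
    (hF : ContinuousOn F B) : Integrable (fun z => ψ z * F z) :=
  (cont_mulr hB hψ hF).integrable_of_hasCompactSupport hψ.2.1.mul_right

/-! ### Truncation -/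

/-- the square of the large values -/
def qq (M s : ℝ) : ℝ := if M < |s| then s ^ 2 else 0

lemma qq_nonneg (M s : ℝ) : 0 ≤ qq M s := by
  unfold qq
  split_ifs
  · positivity
  · exact le_rfl

lemma qq_le (M s : ℝ) : qq M s ≤ s ^ 2 := by
  unfold qq
  split_ifs
  · exact le_rfl
  · positivity

lemma qq_meas (M : ℝ) : Measurable (qq M) := by
  unfold qq
  refine Measurable.ite ?_ (by fun_prop) measurable_const
  exact measurableSet_lt measurable_const (by fun_prop)

/-- the majorant -/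
def GG (τ M s : ℝ) : ℝ := 1 / (2 * τ) * qq M s + τ / 2 * s ^ 2

lemma GG_nonneg {τ : ℝ} (hτ : 0 < τ) (M s : ℝ) : 0 ≤ GG τ M s := by
  unfold GG
  have := qq_nonneg M s
  positivity

lemma GG_le {τ : ℝ} (hτ : 0 < τ) (M s : ℝ) : GG τ M s ≤ (1 / (2 * τ) + τ / 2) * s ^ 2 := by
  unfold GG
  have h1 := mul_le_mul_of_nonneg_left (qq_le M s) (show 0 ≤ 1 / (2 * τ) by positivity)
  linarith

lemma GG_meas (τ M : ℝ) : Measurable (GG τ M) := by
  unfold GG
  have := qq_meas M
  fun_prop

lemma cut_cont (M : ℝ) : Continuous (cut M) := by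
  unfold cut
  fun_prop

lemma cut_eq {M s : ℝ} (h : |s| ≤ M) : cut M s = s := by
  unfold cut
  rw [abs_le] at h
  rw [min_eq_right h.2, max_eq_right h.1]

lemma cut_sub {M : ℝ} (hM : 0 ≤ M) (s : ℝ) : |s - cut M s| ≤ |s| ∧ |cut M s| ≤ |s| := by
  unfold cut
  rcases le_total s M with h1 | h1
  · rw [min_eq_right h1]
    rcases le_total (-M) s with h2 | h2
    · rw [max_eq_right h2]
      simp
    · rw [max_eq_left h2]
      have h3 : s ≤ 0 := by linarith
      rw [abs_of_nonpos h3, abs_neg, abs_of_nonneg hM, abs_of_nonpos (by linarith)]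
      constructor <;> linarith
  · rw [min_eq_left h1, max_eq_right (by linarith)]
    have h3 : 0 ≤ s := by linarith
    rw [abs_of_nonneg h3, abs_of_nonneg hM, abs_of_nonneg (by linarith)]
    constructor <;> linarith

lemma amgm {τ : ℝ} (hτ : 0 < τ) (a b : ℝ) : |a| * |b| ≤ 1 / (2 * τ) * a ^ 2 + τ / 2 * b ^ 2 := by
  have h1 : 0 ≤ (|a| - τ * |b|) ^ 2 := sq_nonneg _
  have h2 : 1 / (2 * τ) * a ^ 2 + τ / 2 * b ^ 2 - |a| * |b| = 1 / (2 * τ) * (|a| - τ * |b|) ^ 2 := by
    rw [← sq_abs a, ← sq_abs b]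
    field_simp
    ring
  have h3 : 0 ≤ 1 / (2 * τ) * (|a| - τ * |b|) ^ 2 := by positivity
  linarith

lemma half {τ M : ℝ} (hτ : 0 < τ) (hM : 0 ≤ M) (s t : ℝ) :
    |s - cut M s| * |t| ≤ 1 / (2 * τ) * qq M s + τ / 2 * t ^ 2 := by
  by_cases h : M < |s|
  · have h1 := mul_le_mul_of_nonneg_right (cut_sub hM s).1 (abs_nonneg t)
    have h2 := amgm hτ s t
    unfold qq
    rw [if_pos h]
    linarith
  · rw [cut_eq (not_lt.1 h), sub_self, abs_zero, zero_mul]
    have := qq_nonneg M s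
    positivity

/-- the truncation of a product -/
lemma trunc {τ M : ℝ} (hτ : 0 < τ) (hM : 0 ≤ M) (s t : ℝ) :
    |s * t - cut M s * cut M t| ≤ GG τ M s + GG τ M t := by
  have e1 : s * t - cut M s * cut M t = (s - cut M s) * t + cut M s * (t - cut M t) := by ring
  rw [e1]
  refine (abs_add_le _ _).trans ?_
  rw [abs_mul, abs_mul]
  have h1 := half hτ hM s t
  have h2 := half hτ hM t s
  have h3 : |cut M s| * |t - cut M t| ≤ |t - cut M t| * |s| := by
    rw [mul_comm]
    exact mul_le_mul_of_nonneg_left (cut_sub hM s).2 (abs_nonneg _)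
  unfold GG
  linarith

/-- the difference of the two point functions is bounded by an integral over a compact set -/
lemma diff_le {Ω : Set ℂ} {φ f : ℂ → ℝ} {U K' : Set ℂ} {δ A τ M s : ℝ} {v : ℂ} (hφ : TF Ω φ)
    (hU : IsOpen U) (sU : tsupport φ ⊆ U) (hK : IsCompact K') (UK : U ⊆ K') (d2 : δ ≤ 1 / 2)
    (mem : ∀ z ∈ U, ∀ (s : ℝ) (v : ℂ), |s| * ‖v‖ ≤ δ → mv s v z ∈ K') (hA : ∀ z, |φ z| ≤ A)
    (hf : ContinuousOn f K') (hτ : 0 < τ) (hM : 0 ≤ M) (hs : |s| * ‖v‖ ≤ δ) :
    |(∫ z, φ z * (f z * f (mv s v z))) - ∫ z, φ z * (cut M (f z) * cut M (f (mv s v z)))| ≤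
      3 * A * ∫ z in K', GG τ M (f z) := by
  have hA0 : 0 ≤ A := (abs_nonneg _).trans (hA 0)
  have hφU : TF U φ := ⟨hφ.1, hφ.2.1, sU⟩
  have c1 : ContinuousOn f U := hf.mono UK
  have c2 : ContinuousOn (fun z => f (mv s v z)) U :=
    hf.comp (mv_cont s v).continuousOn fun z hz => mem z hz s v hs
  have i1 := int_mulr hU hφU (c1.mul c2)
  have i2 := int_mulr hU hφU (((cut_cont M).comp_continuousOn c1).mul
    ((cut_cont M).comp_continuousOn c2))
  have ig0 : IntegrableOn (fun z => GG τ M (f z)) K' := by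
    have j1 : IntegrableOn (fun z => (1 / (2 * τ) + τ / 2) * f z ^ 2) K' :=
      ((hf.pow 2).integrableOn_compact hK).const_mul _
    refine Integrable.mono' j1 ?_ (Eventually.of_forall fun z => ?_)
    · exact ((GG_meas τ M).comp_aemeasurable
        (hf.aestronglyMeasurable hK.measurableSet).aemeasurable).aestronglyMeasurable
    · rw [Real.norm_eq_abs, abs_of_nonneg (GG_nonneg hτ M _)]
      exact GG_le hτ M _
  have ig : Integrable (K'.indicator fun z => GG τ M (f z)) := ig0.integrable_indicator hK.measurableSet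
  have hg0 : ∀ z, 0 ≤ K'.indicator (fun z => GG τ M (f z)) z := fun z =>
    Set.indicator_nonneg (fun _ _ => GG_nonneg hτ M _) z
  obtain ⟨j1, j2⟩ := cov (det_ge d2 hs) ig hg0
  have e1 : (∫ z, φ z * (f z * f (mv s v z))) - ∫ z, φ z * (cut M (f z) * cut M (f (mv s v z))) =
      ∫ z, (φ z * (f z * f (mv s v z)) - φ z * (cut M (f z) * cut M (f (mv s v z)))) :=
    (integral_sub i1 i2).symm
  rw [e1]
  calc |∫ z, (φ z * (f z * f (mv s v z)) - φ z * (cut M (f z) * cut M (f (mv s v z))))|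
      ≤ ∫ z, (A * K'.indicator (fun z => GG τ M (f z)) z +
          A * K'.indicator (fun z => GG τ M (f z)) (mv s v z)) := by
        rw [← Real.norm_eq_abs]
        refine norm_integral_le_of_norm_le ((ig.const_mul A).add (j1.const_mul A))
          (Eventually.of_forall fun z => ?_)
        rw [← mul_sub, Real.norm_eq_abs, abs_mul, ← mul_add]
        by_cases hz : z ∈ tsupport φ
        · rw [Set.indicator_of_mem (UK (sU hz)), Set.indicator_of_mem (mem z (sU hz) s v hs)]
          exact mul_le_mul (hA z) (trunc hτ hM _ _) (abs_nonneg _) hA0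
        · rw [image_eq_zero_of_notMem_tsupport hz, abs_zero, zero_mul]
          exact mul_nonneg hA0 (add_nonneg (hg0 _) (hg0 _))
    _ = A * (∫ z, K'.indicator (fun z => GG τ M (f z)) z) +
          A * ∫ z, K'.indicator (fun z => GG τ M (f z)) (mv s v z) := by
        rw [integral_add (ig.const_mul A) (j1.const_mul A), integral_const_mul, integral_const_mul]
    _ ≤ A * (∫ z, K'.indicator (fun z => GG τ M (f z)) z) +
          A * (2 * ∫ z, K'.indicator (fun z => GG τ M (f z)) z) := by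
        have := mul_le_mul_of_nonneg_left j2 hA0
        linarith
    _ = 3 * A * ∫ z in K', GG τ M (f z) := by
        rw [integral_indicator hK.measurableSet]
        ring

/-- from the compact set to the domain -/
lemma dom_le {Ω K' : Set ℂ} {f : ℂ → ℝ} {τ M Y : ℝ} (hΩ : IsOpen Ω) (hHP : Ω ⊆ HP) (hK : IsCompact K')
    (KB : K' ⊆ Ω) (hY : ∀ z ∈ K', z.im ≤ Y) (hf : ContinuousOn f Ω)
    (hi : IntegrableOn (fun z : ℂ => f z ^ 2 / z.im ^ 2) Ω) (hτ : 0 < τ) :
    ∫ z in K', GG τ M (f z) ≤ Y ^ 2 * (1 / (2 * τ) * (∫ z in Ω, qq M (f z) / z.im ^ 2) +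
      τ / 2 * ∫ z in Ω, f z ^ 2 / z.im ^ 2) := by
  have hm : AEMeasurable f (volume.restrict Ω) :=
    (hf.aestronglyMeasurable hΩ.measurableSet).aemeasurable
  have hmi : Measurable fun z : ℂ => z.im ^ 2 := Complex.measurable_im.pow_const 2
  have iq : IntegrableOn (fun z : ℂ => qq M (f z) / z.im ^ 2) Ω := by
    refine Integrable.mono' hi ?_ (Eventually.of_forall fun z => ?_)
    · exact (((qq_meas M).comp_aemeasurable hm).div hmi.aemeasurable).aestronglyMeasurable
    · rw [Real.norm_eq_abs, abs_of_nonneg (div_nonneg (qq_nonneg M _) (sq_nonneg _))]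
      exact div_le_div_of_nonneg_right (qq_le M _) (sq_nonneg _)
  have iG : IntegrableOn (fun z : ℂ => Y ^ 2 * (1 / (2 * τ) * (qq M (f z) / z.im ^ 2) +
      τ / 2 * (f z ^ 2 / z.im ^ 2))) Ω := ((iq.const_mul _).add (hi.const_mul _)).const_mul _
  have hn : ∀ z : ℂ, 0 ≤ Y ^ 2 * (1 / (2 * τ) * (qq M (f z) / z.im ^ 2) +
      τ / 2 * (f z ^ 2 / z.im ^ 2)) := by
    intro z
    have := qq_nonneg M (f z)
    positivity
  calc ∫ z in K', GG τ M (f z)
      ≤ ∫ z in K', Y ^ 2 * (1 / (2 * τ) * (qq M (f z) / z.im ^ 2) +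
          τ / 2 * (f z ^ 2 / z.im ^ 2)) := by
        have hpt : ∀ z ∈ K', GG τ M (f z) ≤ Y ^ 2 * (1 / (2 * τ) * (qq M (f z) / z.im ^ 2) +
            τ / 2 * (f z ^ 2 / z.im ^ 2)) := by
          intro z hz
          have hz0 : 0 < z.im := hHP (KB hz)
          have hzY := hY z hz
          have h1 : z.im ^ 2 ≤ Y ^ 2 := pow_le_pow_left₀ hz0.le hzY 2
          have h2 : GG τ M (f z) = z.im ^ 2 * (1 / (2 * τ) * (qq M (f z) / z.im ^ 2) +
              τ / 2 * (f z ^ 2 / z.im ^ 2)) := by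
            unfold GG
            field_simp
          rw [h2]
          refine mul_le_mul_of_nonneg_right h1 ?_
          have := qq_nonneg M (f z)
          positivity
        have iK := iG.mono_set KB
        refine setIntegral_mono_on ?_ iK hK.measurableSet hpt
        refine Integrable.mono' iK ?_ ?_
        · exact ((GG_meas τ M).comp_aemeasurable
            (hm.mono_measure (Measure.restrict_mono KB le_rfl))).aestronglyMeasurable
        · refine (ae_restrict_iff' hK.measurableSet).2 (Eventually.of_forall fun z hz => ?_)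
          rw [Real.norm_eq_abs, abs_of_nonneg (GG_nonneg hτ M _)]
          exact hpt z hz
    _ ≤ ∫ z in Ω, Y ^ 2 * (1 / (2 * τ) * (qq M (f z) / z.im ^ 2) +
          τ / 2 * (f z ^ 2 / z.im ^ 2)) :=
        setIntegral_mono_set iG (Eventually.of_forall hn) (Eventually.of_forall KB)
    _ = _ := by
        rw [integral_const_mul, integral_add (iq.const_mul _) (hi.const_mul _), integral_const_mul,
          integral_const_mul]

/-- **QB/TR** -/
theorem TR : S_TR := by
  intro Ω lam u H hUI φ hφ R ε hε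
  obtain ⟨U, K', hU, sU, hK, KB, UK, δ, dp, d2, mem⟩ := geo H.op hφ
  obtain ⟨A, hA⟩ := hφ.2.1.exists_bound_of_continuous hφ.1.continuous
  have hA0 : 0 ≤ A := (norm_nonneg _).trans (hA 0)
  obtain ⟨Y, hY⟩ := hK.isBounded.exists_norm_le
  have hY' : ∀ z ∈ K', z.im ≤ |Y| + 1 := by
    intro z hz
    have h1 := hY z hz
    have h2 := (le_abs_self z.im).trans (Complex.abs_im_le_norm z)
    have h3 := le_abs_self Y
    linarith
  obtain ⟨V, hV⟩ : ∃ V : ℝ, V = ∫ z in Ω, 1 / (z : ℂ).im ^ 2 := ⟨_, rfl⟩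
  have hV0 : 0 ≤ V := by
    rw [hV]
    exact integral_nonneg fun z => by positivity
  have hVne : V ≠ 0 := by
    intro h
    have h1 := H.ms.2
    rw [← hV, h] at h1
    simp only [div_zero] at h1
    exact zero_ne_one (tendsto_nhds_unique tendsto_const_nhds h1)
  have hVp : 0 < V := lt_of_le_of_ne hV0 (Ne.symm hVne)
  have hms : ∀ᶠ n in atTop, ∫ z in Ω, u n z ^ 2 / z.im ^ 2 ≤ 2 * V := by
    have h1 := H.ms.2
    rw [← hV] at h1
    filter_upwards [h1.eventually (gt_mem_nhds (show (1 : ℝ) < 2 by norm_num))] with n hn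
    rw [div_lt_iff₀ hVp] at hn
    exact hn.le
  obtain ⟨W, hW⟩ : ∃ W : ℝ, W = 3 * A * (|Y| + 1) ^ 2 + 1 := ⟨_, rfl⟩
  have hW1 : 1 ≤ W := by
    rw [hW]
    have : 0 ≤ 3 * A * (|Y| + 1) ^ 2 := by positivity
    linarith
  obtain ⟨τ, hτd⟩ : ∃ τ : ℝ, τ = ε / (2 * W * V) := ⟨_, rfl⟩
  have hτ : 0 < τ := by rw [hτd]; positivity
  obtain ⟨M1, hM1⟩ := hUI (τ * ε / W) (by positivity)
  refine ⟨max M1 0, fun M hM => ?_⟩
  have hM0 : 0 ≤ M := (le_max_right _ _).trans hM
  have hlim : Tendsto (fun n => 1 / √(lam n) * (|R| + 1)) atTop (𝓝 0) := by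
    have h1 : Tendsto (fun n => √(lam n)) atTop atTop := Real.tendsto_sqrt_atTop.comp H.lim
    have h2 := (h1.inv_tendsto_atTop).mul_const (|R| + 1)
    rw [zero_mul] at h2
    refine h2.congr fun n => ?_
    simp only [Pi.inv_apply, one_div]
  filter_upwards [hms, hM1 M ((le_max_left _ _).trans hM), hlim.eventually (gt_mem_nhds dp)] with
    n h1 h2 h3 v hv
  have hs : |1 / √(lam n)| * ‖v‖ ≤ δ := by
    have h4 : 0 ≤ 1 / √(lam n) := by positivity
    rw [abs_of_nonneg h4]
    refine le_trans ?_ h3.le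
    apply mul_le_mul_of_nonneg_left _ h4
    have := le_abs_self R
    linarith
  have hcΩ : ContinuousOn (u n) Ω := (H.sm n).continuousOn.mono H.sub
  have k1 := diff_le (τ := τ) (M := M) hφ hU sU hK UK d2 mem hA (hcΩ.mono KB) hτ hM0 hs
  have k2 := dom_le (τ := τ) (M := M) H.op H.sub hK KB hY' hcΩ (H.ms.1 n) hτ
  unfold T2 T2c
  refine k1.trans ?_
  have k3 : ∫ z in Ω, qq M (u n z) / z.im ^ 2 ≤ τ * ε / W := h2
  have k4 : 1 / (2 * τ) * (∫ z in Ω, qq M (u n z) / z.im ^ 2) +
      τ / 2 * ∫ z in Ω, u n z ^ 2 / z.im ^ 2 ≤ ε / W := by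
    have e1 := mul_le_mul_of_nonneg_left k3 (show 0 ≤ 1 / (2 * τ) by positivity)
    have e2 := mul_le_mul_of_nonneg_left h1 (show 0 ≤ τ / 2 by positivity)
    have e3 : 1 / (2 * τ) * (τ * ε / W) = ε / (2 * W) := by
      field_simp
    have e4 : τ / 2 * (2 * V) = ε / (2 * W) := by
      rw [hτd]
      field_simp
    have e5 : ε / (2 * W) + ε / (2 * W) = ε / W := by
      field_simp
      ring
    linarith
  have k5 : ∫ z in K', GG τ M (u n z) ≤ (|Y| + 1) ^ 2 * (ε / W) :=
    k2.trans (mul_le_mul_of_nonneg_left k4 (by positivity))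
  calc 3 * A * ∫ z in K', GG τ M (u n z) ≤ 3 * A * ((|Y| + 1) ^ 2 * (ε / W)) :=
        mul_le_mul_of_nonneg_left k5 (by positivity)
    _ = (3 * A * (|Y| + 1) ^ 2) * (ε / W) := by ring
    _ ≤ W * (ε / W) := mul_le_mul_of_nonneg_right (by rw [hW]; linarith) (by positivity)
    _ = ε := by field_simp

end

end Pool.Agent.N271.QBTR
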