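import Pool.Agent.N646.RG.Stm
import Pool.Agent.Y827.GS.FamF
import Pool.Agent.Y827.RO.FinalR

/-!
Project RG, part HIT2: one configuration of forms `± n + c`, from the theorem `thmR`. The theorem `lamR2`
is `Pool.Agent.Y827.RO.lamR0` with the upper bound for the variable kept.
-/

set_option autoImplicit false

namespace Pool.Agent.N271.RGHIT2

open Finset Filter Topology
open Pool.Agent.W25.UN
open Pool.Agent.W25.UB (CopAt)
open Pool.Agent.H410R2 (WW)
open Pool.Agent.TH899.UG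
open Pool.Agent.TH899.UG.Uni
open Pool.Agent.Y827.GS
open Pool.Agent.Y827.RO (thmR)
open Pool.Agent.N646.RO (Rgh)
open Pool.Agent.N646.RG (ev Afm IN S_HIT2)

open Classical in
/-- the `n ≤ N` at which all the forms `H g i`, and `n - s`, are free of primes `≤ N ^ δ` and the forms
`H g (σ g)`, `g ∈ S`, are prime -/
noncomputable def Rs2 {T K : ℕ} (H : Fin T → Fin K → ℤ × ℤ) (δ : ℝ) (s : ℕ) (S : Finset (Fin T))
    (σ : Fin T → Fin K) (N : ℕ) : Finset ℕ :=
  (Icc 1 N).filter (fun n : ℕ => ((N : ℝ) / 16 ≤ n ∧ (n : ℝ) ≤ N / 2 + s) ∧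
    (∀ p : ℕ, p.Prime → Real.log p ≤ δ * Real.log N → ¬ (p : ℤ) ∣ (n : ℤ) - s) ∧
    (∀ g i, ∀ p : ℕ, p.Prime → Real.log p ≤ δ * Real.log N →
      ¬ (p : ℤ) ∣ (H g i).1 * n + (H g i).2) ∧
    ∀ g ∈ S, ((H g (σ g)).1 * (n : ℤ) + (H g (σ g)).2).toNat.Prime)

open Classical in
/-- **the coloured theorem for families of linear forms, uniformly, right order** -/
theorem lamR2 (T M : ℕ) (hT : 1 ≤ T) (hTM : (18 / 5 : ℝ) * M < T) : ∃ K : ℕ, 1 ≤ K ∧ ∃ δ : ℝ,
    0 < δ ∧ ∀ (A : ℕ), ∃ (s₀ : ℕ) (c : ℝ), 0 < c ∧ ∀ᶠ N : ℕ in atTop,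
    ∀ H : Fin T → Fin K → ℤ × ℤ,
    Function.Injective (fun x : Fin T × Fin K => H x.1 x.2) → (∀ g i, Adf A N (H g i)) →
    (∀ p : ℕ, p.Prime → p ≤ T * K → ∃ r : ℤ, ∀ g i, ¬ (p : ℤ) ∣ (H g i).1 * r + (H g i).2) →
    ∃ (s : ℕ) (S : Finset (Fin T)) (σ : Fin T → Fin K), s ≤ s₀ ∧ M + 1 ≤ S.card ∧
      c * (N / (Real.log N) ^ (T * K + 1)) ≤ ((Rs2 H δ s S σ N).card : ℝ) := by
  obtain ⟨K, hK, δ, hδ, D₀, H⟩ := thmR T M hT hTM
  refine ⟨K, by omega, δ / 2, by positivity, ?_⟩
  intro A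
  set D : ℕ := D₀ + A + (T * K + 1) with hD
  obtain ⟨c, hc, H⟩ := H D (by omega)
  set k : ℕ := T * K with hk
  have : NeZero K := ⟨by omega⟩
  have hW : 0 < WW D := by
    rw [WW]; exact prod_pos fun p hp => (mem_filter.1 hp).2.pos
  have h2 : ∀ᶠ N : ℕ in atTop, ∀ a ∈ (Fintype.piFinset (fun _ : Fin (T * K) =>
      Icc (-(A : ℤ)) A)).filter (fun a => ∀ i, a i ≠ 0), ∀ (h : Fin (T * K) → ℤ) (Mo : ℕ),
      HB h Mo N → Nd a h Mo → PosR a h Mo N → ∀ v : ℕ, CopAt a h D Mo v →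
      c * (N / (Real.log N) ^ (T * K + 1)) ≤
      (((Icc 1 N).filter (fun n : ℕ => n ≡ v [MOD (WW D)] ∧
        (N : ℝ) / 16 ≤ n ∧ (n : ℝ) ≤ N / 2 ∧
        (∀ p : ℕ, p.Prime → Real.log p ≤ δ * Real.log N → ∀ q,
          ¬ p ∣ LZ (uB a) (wB h Mo) q n) ∧
        M + 1 ≤ (univ.filter (fun g : Fin T => ∃ i, cl i = g ∧
          (Fm a h Mo i n).toNat.Prime)).card)).card : ℝ) := by
    rw [Filter.eventually_all_finset]
    intro a ha
    obtain ⟨ha1, ha2⟩ := mem_filter.1 ha
    rw [Fintype.mem_piFinset] at ha1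
    refine H a cl Pool.Agent.TH899.UG.Uni.card_cl (fun _ => trivial) (fun i => ha2 _)
      (fun i => ?_)
    have h3 := mem_Icc.1 (ha1 i)
    omega
  set P : ℕ := 2 ^ T * K ^ T with hP
  have hP0 : 0 < P := by rw [hP]; positivity
  refine ⟨WW D * (k + 3), c / P, by positivity, ?_⟩
  filter_upwards [h2, eventually_ge_atTop (100 * (A * (WW D * (k + 3)) + WW D * (k + 3))),
    eventually_ge_atTop 3] with N hN2 hN4 hN3 f hinj hAd hloc
  have hN1 : 1 ≤ N := by omega
  have hlogN : 0 < Real.log N := Real.log_pos (by exact_mod_cast (by omega : 1 < N))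
  have hNpos : (0 : ℝ) < N := by exact_mod_cast hN1
  -- the shift
  obtain ⟨s, hs1, hs2, hs3⟩ := crtF D (fun i : Fin (T * K) => f (cl i) (sx i))
    (fun i => (hAd _ _).2.2.2.1) (fun i => (hAd _ _).1) (by
      intro p hp hpk
      obtain ⟨r, hr⟩ := hloc p hp hpk
      exact ⟨r, fun i => hr _ _⟩)
  set a : Fin (T * K) → ℤ := fun i => (f (cl i) (sx i)).1 with ha
  set h : Fin (T * K) → ℤ := fun i => (f (cl i) (sx i)).2 + (f (cl i) (sx i)).1 * s with hh
  have hAs : A * s + s ≤ A * (WW D * (k + 3)) + WW D * (k + 3) :=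
    Nat.add_le_add (Nat.mul_le_mul_left _ hs1) hs1
  have hAsN : 100 * (A * s + s) ≤ N := (Nat.mul_le_mul_left 100 hAs).trans hN4
  have hAsN' : 100 * ((A : ℤ) * s + s) ≤ N := by exact_mod_cast hAsN
  have has : ∀ i, |(f (cl i) (sx i)).1 * (s : ℤ)| ≤ (A : ℤ) * s := by
    intro i
    rw [abs_mul, abs_of_nonneg (Nat.cast_nonneg s : (0 : ℤ) ≤ (s : ℤ))]
    exact mul_le_mul_of_nonneg_right (hAd _ _).2.1 (Nat.cast_nonneg s)
  have hHB : HB h 0 N := by
    intro i
    have e1 := (hAd (cl i) (sx i)).2.2.1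
    have e2 := has i
    have e3 : |((0 : ℕ) : ℤ) + h i| ≤ |(f (cl i) (sx i)).2| + |(f (cl i) (sx i)).1 * (s : ℤ)| := by
      rw [Nat.cast_zero, zero_add, hh]
      exact abs_add_le _ _
    have e4 : (0 : ℤ) ≤ s := Nat.cast_nonneg s
    linarith
  have hNd : Nd a h 0 := by
    intro j l hjl
    rcases j with _ | j <;> rcases l with _ | l
    · exact absurd rfl hjl
    · simp only [uB, wB]
      have := hs2 l
      intro h0
      apply this
      have h5 : h l = 0 := by push_cast at h0; linarith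
      exact h5
    · simp only [uB, wB]
      have := hs2 j
      intro h0
      apply this
      have h5 : h j = 0 := by push_cast at h0; linarith
      exact h5
    · have hne : j ≠ l := fun h => hjl (by rw [h])
      simp only [uB, wB]
      have hfne : f (cl j) (sx j) ≠ f (cl l) (sx l) := by
        intro h5
        apply hne
        have h6 := hinj (a₁ := (cl j, sx j)) (a₂ := (cl l, sx l)) h5
        have h7 := Prod.ext_iff.1 h6
        rw [← ix_cl j, ← ix_cl l]
        simp only at h7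
        rw [h7.1, h7.2]
      have := (hAd (cl j) (sx j)).np hN1 (hAd (cl l) (sx l)) hfne
      intro h0
      apply this
      push_cast at h0
      simp only [ha, hh] at h0
      linarith
  have hPR : PosR a h 0 N := by
    intro i x hx1 hx2
    have h5 := (hAd (cl i) (sx i)).2.2.2.2 x hx1 hx2
    have h6 := (abs_le.1 (has i)).1
    have h7 : (-((A : ℝ) * s) : ℝ) ≤ (f (cl i) (sx i)).1 * (s : ℝ) := by
      have : ((-((A : ℤ) * s) : ℤ) : ℝ) ≤ (((f (cl i) (sx i)).1 * (s : ℤ) : ℤ) : ℝ) := by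
        exact_mod_cast h6
      push_cast at this
      exact this
    have h8 : 100 * ((A : ℝ) * s + s) ≤ N := by exact_mod_cast hAsN
    have h9 : (0 : ℝ) ≤ s := Nat.cast_nonneg s
    simp only [ha, hh]
    push_cast
    linarith
  have hmem : a ∈ (Fintype.piFinset (fun _ : Fin (T * K) => Icc (-(A : ℤ)) A)).filter
      (fun a => ∀ i, a i ≠ 0) := by
    rw [mem_filter, Fintype.mem_piFinset]
    exact ⟨fun i => mem_Icc.2 (abs_le.1 (hAd _ _).2.1), fun i => (hAd _ _).1⟩
  have hmain := hN2 a hmem h 0 hHB hNd hPR 1 hs3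
  -- pigeonhole
  set Q : Finset (Finset (Fin T) × (Fin T → Fin K)) := univ.filter (fun q => M + 1 ≤ q.1.card)
    with hQ
  set B : Finset (Fin T) × (Fin T → Fin K) → Finset ℕ := fun q => (Icc 1 N).filter (fun n : ℕ =>
    (N : ℝ) / 16 ≤ n ∧ (n : ℝ) ≤ N / 2 ∧ (∀ p : ℕ, p.Prime → Real.log p ≤ δ * Real.log N → ∀ q,
          ¬ p ∣ LZ (uB a) (wB h 0) q n) ∧
    ∀ g ∈ q.1, (Fm a h 0 (ix g (q.2 g)) n).toNat.Prime) with hB
  have hsub : (Icc 1 N).filter (fun n : ℕ => n ≡ 1 [MOD (WW D)] ∧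
        (N : ℝ) / 16 ≤ n ∧ (n : ℝ) ≤ N / 2 ∧
        (∀ p : ℕ, p.Prime → Real.log p ≤ δ * Real.log N → ∀ q,
          ¬ p ∣ LZ (uB a) (wB h 0) q n) ∧
        M + 1 ≤ (univ.filter (fun g : Fin T => ∃ i, cl i = g ∧
          (Fm a h 0 i n).toNat.Prime)).card) ⊆ Q.biUnion B := by
    intro n hn
    rw [mem_filter] at hn
    obtain ⟨hn1, -, hn3, hn4, hn6, hn5⟩ := hn
    set S : Finset (Fin T) := univ.filter (fun g : Fin T => ∃ i, cl i = g ∧
          (Fm a h 0 i n).toNat.Prime) with hS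
    have hex : ∀ g : Fin T, ∃ s : Fin K, g ∈ S → (Fm a h 0 (ix g s) n).toNat.Prime := by
      intro g
      by_cases hg : g ∈ S
      · obtain ⟨i, hi1, hi2⟩ := (mem_filter.1 hg).2
        refine ⟨sx i, fun _ => ?_⟩
        rw [← hi1, ix_cl]
        exact hi2
      · exact ⟨0, fun h => absurd h hg⟩
    choose σ hσ using hex
    exact mem_biUnion.2 ⟨(S, σ), mem_filter.2 ⟨mem_univ _, hn5⟩,
      mem_filter.2 ⟨hn1, hn3, hn4, hn6, fun g hg => hσ g hg⟩⟩
  have hbig : ∃ q ∈ Q, c / P * (N / (Real.log N) ^ (T * K + 1)) ≤ ((B q).card : ℝ) := by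
    by_contra hcon
    push Not at hcon
    have e1 := (Nat.cast_le (α := ℝ)).2 ((card_le_card hsub).trans card_biUnion_le)
    rw [Nat.cast_sum] at e1
    have e3 : Q.card ≤ P := by
      refine (card_le_univ _).trans ?_
      rw [Fintype.card_prod, Fintype.card_finset, Fintype.card_fun, Fintype.card_fin,
        Fintype.card_fin]
    have e4 : (Q.card : ℝ) ≤ P := by exact_mod_cast e3
    have hPr : (0 : ℝ) < P := by exact_mod_cast hP0
    have hX : 0 < N / (Real.log N) ^ (T * K + 1) := by positivity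
    rcases Q.eq_empty_or_nonempty with hQe | hQne
    · rw [hQe, Finset.sum_empty] at e1
      have := hmain.trans e1
      nlinarith
    · have e2 : ∑ q ∈ Q, ((B q).card : ℝ) < ∑ _q ∈ Q, c / P * (N / (Real.log N) ^ (T * K + 1)) :=
        Finset.sum_lt_sum_of_nonempty hQne hcon
      rw [Finset.sum_const, nsmul_eq_mul] at e2
      have e5 : (Q.card : ℝ) * (c / P * (N / (Real.log N) ^ (T * K + 1))) ≤
          P * (c / P * (N / (Real.log N) ^ (T * K + 1))) :=
        mul_le_mul_of_nonneg_right e4 (by positivity)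
      have e6 : (P : ℝ) * (c / P * (N / (Real.log N) ^ (T * K + 1))) =
          c * (N / (Real.log N) ^ (T * K + 1)) := by
        field_simp
      rw [e6] at e5
      have := hmain.trans e1
      linarith
  obtain ⟨⟨S, σ⟩, hq, hbig⟩ := hbig
  refine ⟨s, S, σ, hs1, (mem_filter.1 hq).2, hbig.trans ?_⟩
  rw [Nat.cast_le, ← card_image_of_injective (B (S, σ)) (add_left_injective s)]
  apply card_le_card
  intro m hm
  obtain ⟨n, hn, rfl⟩ := mem_image.1 hm
  obtain ⟨hn1, hn0, hn2, hn4, hn3⟩ := mem_filter.1 hn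
  rw [mem_Icc] at hn1
  unfold Rs2
  rw [mem_filter, mem_Icc]
  have hs0 : (s : ℝ) ≤ N / 2 := by
    have h8 : 100 * ((A : ℝ) * s + s) ≤ N := by exact_mod_cast hAsN
    have h9 : (0 : ℝ) ≤ (A : ℝ) * s := by positivity
    linarith
  have hns : ((n + s : ℕ) : ℝ) ≤ N := by push_cast; linarith
  have hδN : ∀ p : ℕ, Real.log p ≤ δ / 2 * Real.log N → Real.log p ≤ δ * Real.log N := by
    intro p h5
    have : 0 < δ * Real.log N := by positivity
    linarith
  refine ⟨⟨by omega, by exact_mod_cast hns⟩, ?_, ?_, ?_, fun g hg => ?_⟩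
  · push_cast
    have : (0 : ℝ) ≤ s := Nat.cast_nonneg s
    exact ⟨by linarith, by linarith⟩
  · intro p hp hpl hd
    apply hn4 p hp (hδN p hpl) none
    unfold LZ
    simp only [uB, wB]
    have e3 : ((n + s : ℕ) : ℤ) - s = 1 * (n : ℤ) + 0 := by push_cast; ring
    rw [e3] at hd
    exact Int.natCast_dvd.1 hd
  · intro g i p hp hpl hd
    apply hn4 p hp (hδN p hpl) (some (ix g i))
    unfold LZ
    have e1 : cl (ix g i) = g := cl_ix g i
    have e2 : sx (ix g i) = i := by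
      unfold sx ix
      rw [Equiv.symm_apply_apply]
    simp only [uB, wB, ha, hh]
    rw [e1, e2]
    have e3 : (f g i).1 * ((n + s : ℕ) : ℤ) + (f g i).2 =
        (f g i).1 * (n : ℤ) + (((0 : ℕ) : ℤ) + ((f g i).2 + (f g i).1 * s)) := by push_cast; ring
    rw [e3] at hd
    exact Int.natCast_dvd.1 hd
  · have h5 := hn3 g hg
    have h6 : Fm a h 0 (ix g (σ g)) n = (f g (σ g)).1 * ((n + s : ℕ) : ℤ) + (f g (σ g)).2 := by
      unfold Fm
      simp only [ha, hh]
      have e1 : cl (ix g (σ g)) = g := cl_ix g (σ g)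
      have e2 : sx (ix g (σ g)) = σ g := by
        unfold sx ix
        rw [Equiv.symm_apply_apply]
      rw [e1, e2]
      push_cast
      ring
    rw [h6] at h5
    exact h5

/-- fibres of `y ↦ y + s y` -/
theorem fib_le (F : Finset ℕ) (s : ℕ → ℕ) (s₀ : ℕ) (hs : ∀ y ∈ F, s y ≤ s₀) (t : Finset ℕ)
    (ht : ∀ y ∈ F, y + s y ∈ t) : F.card ≤ (s₀ + 1) * t.card := by
  refine Finset.card_le_mul_card_image_of_maps_to ht (s₀ + 1) ?_
  intro b _
  have h1 : F.filter (fun y => y + s y = b) ⊆ Icc (b - s₀) b := by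
    intro y hy
    obtain ⟨h2, h3⟩ := mem_filter.1 hy
    have h4 := hs y h2
    exact mem_Icc.2 (by omega)
  refine (card_le_card h1).trans ?_
  rw [Nat.card_Icc]
  omega

open Classical in
theorem main : S_HIT2 := by
  intro T M hT hTM
  obtain ⟨K, hK, δ, hδ, H0⟩ := lamR2 T M hT hTM
  obtain ⟨s₀, c, hc, H1⟩ := H0 1
  have hcardQ : (univ : Finset (Finset (Fin T) × (Fin T → Fin K))).card = 2 ^ T * K ^ T := by
    rw [card_univ, Fintype.card_prod, Fintype.card_finset, Fintype.card_fin, Fintype.card_fun,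
      Fintype.card_fin, Fintype.card_fin]
  set P : ℕ := 2 ^ T * K ^ T with hP
  have hP0 : 0 < P := by rw [hP]; positivity
  have hP0r : (0 : ℝ) < P := by exact_mod_cast hP0
  refine ⟨K, s₀, hK, δ, c / (2 * P * (s₀ + 1)), hδ, by positivity, ?_⟩
  have hlog : Tendsto (fun N : ℕ => Real.log N) atTop atTop :=
    Real.tendsto_log_atTop.comp tendsto_natCast_atTop_atTop
  have hlogN : ∀ᶠ N : ℕ in atTop, Real.log N ≤ N / 1000 := by
    have h1 := Real.isLittleO_log_id_atTop.def (c := 1 / 1000) (by norm_num)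
    filter_upwards [tendsto_natCast_atTop_atTop.eventually h1, eventually_ge_atTop 1] with N h2 h3
    have h4 : (1 : ℝ) ≤ N := by exact_mod_cast h3
    rw [Real.norm_of_nonneg (Real.log_nonneg h4), id, Real.norm_of_nonneg (by linarith)] at h2
    linarith
  filter_upwards [H1, hlogN, hlog.eventually_ge_atTop 2, eventually_ge_atTop (200 * s₀ + 2)]
    with N hN hN1 hN2 hN3
  intro f hinj hA hloc
  set L : ℕ := ⌊Real.log N⌋₊ with hL
  have hL1 : (L : ℝ) ≤ Real.log N := Nat.floor_le (by linarith)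
  have hL2 : Real.log N < L + 1 := Nat.lt_floor_add_one _
  have hLN : 1000 * L ≤ N := by
    have : (1000 * L : ℝ) ≤ N := by linarith
    exact_mod_cast this
  have hNr : (2 : ℝ) ≤ N := by exact_mod_cast (by omega : 2 ≤ N)
  have key : ∀ y : ℕ, y ∈ Icc 1 L → ∃ (s : ℕ) (S : Finset (Fin T)) (σ : Fin T → Fin K), s ≤ s₀ ∧
      M + 1 ≤ S.card ∧ c * (N / (Real.log N) ^ (T * K + 1)) ≤
        ((Rs2 (fun g i => ((f (g, i)).1, (f (g, i)).2 + (f (g, i)).1 * y)) δ s S σ N).card : ℝ) := by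
    intro y hy
    obtain ⟨hy1, hy2⟩ := mem_Icc.1 hy
    refine hN (fun g i => ((f (g, i)).1, (f (g, i)).2 + (f (g, i)).1 * y)) ?_ ?_ ?_
    · rintro ⟨a, b⟩ ⟨a', b'⟩ h
      simp only [Prod.mk.injEq] at h
      obtain ⟨h1, h2⟩ := h
      rw [h1] at h2
      exact hinj (Prod.ext h1 (add_right_cancel h2))
    · intro g i
      obtain ⟨h1, h2, h3⟩ := hA (g, i)
      have e1 : |(f (g, i)).1| = 1 := by
        rcases h1 with h1 | h1 <;> rw [h1] <;> rfl
      have e2 : 1000 * (y : ℤ) ≤ N := by exact_mod_cast (Nat.mul_le_mul_left 1000 hy2).trans hLN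
      have e3 : |(f (g, i)).1 * (y : ℤ)| = y := by
        rw [abs_mul, e1, one_mul, abs_of_nonneg (by positivity)]
      refine ⟨?_, ?_, ?_, ?_, ?_⟩
      · rcases h1 with h1 | h1 <;> simp only [h1] <;> norm_num
      · simp only [e1]
        norm_num
      · have e4 := abs_add_le (f (g, i)).2 ((f (g, i)).1 * (y : ℤ))
        rw [e3] at e4
        simp only
        have e5 : (0 : ℤ) ≤ N := by positivity
        linarith
      · rcases h1 with h1 | h1
        · simp only [h1]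
          exact isCoprime_one_left
        · simp only [h1]
          exact (isCoprime_one_left).neg_left
      · intro t ht1 ht2
        have e4 := h3 t ht1 ht2
        have e5 : 1000 * (y : ℝ) ≤ N := by exact_mod_cast e2
        have e6 : -(y : ℝ) ≤ ((f (g, i)).1 : ℝ) * y := by
          have := neg_abs_le ((f (g, i)).1 * (y : ℤ))
          rw [e3] at this
          exact_mod_cast this
        simp only
        push_cast
        linarith
    · intro p hp hpk
      obtain ⟨r, hr⟩ := hloc p hp hpk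
      refine ⟨r - y, fun g i hd => hr (g, i) ?_⟩
      have e1 : (f (g, i)).1 * (r - y) + ((f (g, i)).2 + (f (g, i)).1 * (y : ℤ)) =
          (f (g, i)).1 * r + (f (g, i)).2 := by ring
      simp only at hd
      rw [e1] at hd
      exact hd
  have : Nonempty (Fin K) := ⟨⟨0, by omega⟩⟩
  choose! s S σ hs hS hcard using key
  set R : ℕ → Finset ℕ := fun y =>
    Rs2 (fun g i => ((f (g, i)).1, (f (g, i)).2 + (f (g, i)).1 * y)) δ (s y) (S y) (σ y) N with hR
  set X : ℝ := c * (N / (Real.log N) ^ (T * K + 1)) with hX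
  have hlogpos : 0 < Real.log N := by linarith
  have hX0 : 0 < X := by rw [hX]; positivity
  have hL0 : 1 ≤ L := Nat.le_floor (by push_cast; linarith)
  have hLr : (1 : ℝ) ≤ L := by exact_mod_cast hL0
  -- pigeonhole
  have htot : ∑ q : Finset (Fin T) × (Fin T → Fin K), (L * X / P : ℝ) ≤
      ∑ q : Finset (Fin T) × (Fin T → Fin K),
        ∑ y ∈ (Icc 1 L).filter (fun y => (S y, σ y) = q), ((R y).card : ℝ) := by
    rw [Finset.sum_fiberwise_of_maps_to (fun _ _ => mem_univ _), sum_const, hcardQ, nsmul_eq_mul,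
      mul_div_cancel₀ _ hP0r.ne']
    calc (L * X : ℝ) = ∑ y ∈ Icc 1 L, X := by simp
      _ ≤ _ := sum_le_sum fun y hy => hcard y hy
  obtain ⟨q, _, hq⟩ := exists_le_of_sum_le univ_nonempty htot
  set fib : Finset ℕ := (Icc 1 L).filter (fun y => (S y, σ y) = q) with hfib
  have hne : fib.Nonempty := by
    rw [nonempty_iff_ne_empty]
    intro h0
    rw [h0, sum_empty] at hq
    have : 0 < (L * X / P : ℝ) := by positivity
    linarith
  obtain ⟨y₀, hy₀⟩ := hne
  obtain ⟨hy₀1, hy₀2⟩ := mem_filter.1 hy₀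
  refine ⟨q.1, q.2, ?_, ?_⟩
  · rw [← hy₀2]
    exact hS y₀ hy₀1
  set G : Finset ℕ := (IN N).filter (fun n : ℕ => (∀ x, Rgh δ N (ev (f x) n)) ∧
    ∀ g ∈ q.1, (ev (f (g, q.2 g)) n).toNat.Prime) with hG
  have hmem : ∀ y ∈ fib, ∀ n ∈ R y, n + y ∈ G ∧ Rgh δ N (((n + y : ℕ) : ℤ) - ((y + s y : ℕ) : ℤ)) := by
    intro y hy n hn
    obtain ⟨hy1, hy2⟩ := mem_filter.1 hy
    obtain ⟨hy3, hy4⟩ := mem_Icc.1 hy1
    have hq1 : S y = q.1 := by rw [← hy2]
    have hq2 : σ y = q.2 := by rw [← hy2]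
    have hsy := hs y hy1
    simp only [hR, Rs2, mem_filter, mem_Icc] at hn
    obtain ⟨⟨hn1, hn2⟩, ⟨hn3, hn7⟩, hn4, hn5, hn6⟩ := hn
    have he : ∀ x : Fin T × Fin K, (f x).1 * (n : ℤ) + ((f x).2 + (f x).1 * (y : ℤ)) =
        ev (f x) (n + y) := by
      intro x
      unfold ev
      push_cast
      ring
    refine ⟨?_, ?_⟩
    · rw [hG, mem_filter, IN, mem_Icc]
      refine ⟨⟨?_, ?_⟩, ?_, ?_⟩
      · have h1 : ((N / 18 : ℕ) : ℝ) ≤ N / 18 := by
          have := @Nat.cast_div_le ℝ _ _ _ N 18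
          simpa using this
        have h2 : ((N / 18 : ℕ) : ℝ) ≤ n := by linarith
        have h3 : N / 18 ≤ n := by exact_mod_cast h2
        omega
      · have h1 : 2 * (n : ℝ) ≤ N + 2 * s y := by linarith
        have h2 : 2 * n ≤ N + 2 * s y := by exact_mod_cast h1
        omega
      · rintro ⟨g, i⟩ p hp hpl hdvd
        apply hn5 g i p hp hpl
        rw [he (g, i)]
        exact hdvd
      · intro g hg
        have h1 := hn6 g (by rw [hq1]; exact hg)
        rw [hq2, he (g, q.2 g)] at h1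
        exact h1
    · intro p hp hpl hdvd
      apply hn4 p hp hpl
      have e : (n : ℤ) - s y = ((n + y : ℕ) : ℤ) - ((y + s y : ℕ) : ℤ) := by push_cast; ring
      rw [e]
      exact hdvd
  set W : ℕ → ℕ := fun n =>
    ((range (L + s₀ + 1)).filter (fun j : ℕ => Rgh δ N (n - j))).card with hW
  have hcount : ∑ y ∈ fib, (R y).card ≤ (s₀ + 1) * ∑ n ∈ G, W n := by
    calc ∑ y ∈ fib, (R y).card
        ≤ ∑ y ∈ fib, (bipartiteAbove (fun y n' => ∃ n ∈ R y, n + y = n') G y).card := by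
          refine sum_le_sum fun y hy => ?_
          refine card_le_card_of_injOn (fun n => n + y) ?_ ?_
          · intro n hn
            simp only [coe_bipartiteAbove, Set.mem_ofPred_eq]
            exact ⟨(hmem y hy n hn).1, n, hn, rfl⟩
          · intro a _ b _ hab
            simpa using hab
      _ = ∑ n' ∈ G, (bipartiteBelow (fun y n' => ∃ n ∈ R y, n + y = n') fib n').card :=
          sum_card_bipartiteAbove_eq_sum_card_bipartiteBelow _
      _ ≤ ∑ n' ∈ G, (s₀ + 1) * W n' := by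
          refine sum_le_sum fun n' _ => ?_
          refine fib_le _ s s₀ ?_ _ ?_
          · intro y hy
            exact hs y (mem_filter.1 (mem_filter.1 hy).1).1
          · intro y hy
            obtain ⟨hy1, n, hn, rfl⟩ := mem_filter.1 hy
            have h1 := (mem_Icc.1 (mem_filter.1 hy1).1).2
            have h2 := hs y (mem_filter.1 hy1).1
            refine mem_filter.2 ⟨mem_range.2 (by omega), (hmem y hy1 n hn).2⟩
      _ = (s₀ + 1) * ∑ n ∈ G, W n := by rw [mul_sum]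
  have hcount' : (∑ y ∈ fib, ((R y).card : ℝ)) ≤ (s₀ + 1) * ∑ n ∈ G, (W n : ℝ) := by
    exact_mod_cast hcount
  have hX2 : (Real.log N) * X = c * (N / (Real.log N) ^ (T * K)) := by
    rw [hX, pow_succ]
    field_simp
  have hs0 : (0 : ℝ) < s₀ + 1 := by positivity
  have h1 : c / 2 * (N / (Real.log N) ^ (T * K)) ≤ L * X := by
    have h2 : Real.log N / 2 ≤ L := by linarith
    calc c / 2 * (N / (Real.log N) ^ (T * K)) = Real.log N / 2 * X := by
          rw [← mul_left_inj' (two_ne_zero' ℝ)]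
          linear_combination -hX2
      _ ≤ L * X := by gcongr
  calc c / (2 * P * (s₀ + 1)) * (N / (Real.log N) ^ (T * K))
      = (c / 2 * (N / (Real.log N) ^ (T * K))) / P / (s₀ + 1) := by
        field_simp
    _ ≤ (L * X) / P / (s₀ + 1) := by gcongr
    _ ≤ (∑ y ∈ fib, ((R y).card : ℝ)) / (s₀ + 1) := by gcongr
    _ ≤ ∑ n ∈ G, (W n : ℝ) := by
        rw [div_le_iff₀ hs0, mul_comm]
        exact hcount'

end Pool.Agent.N271.RGHIT2
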