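import Pool.Agent.N502.TM.Stm

/-!
# Project TM, part HIL: comparison of energies in a Hilbert space

The minimizer is replaced by a separating functional (geometric Hahn-Banach theorem).
-/

set_option autoImplicit false

namespace Pool.Agent.N271.TMHIL

open Filter Topology
open scoped Real InnerProductSpace
open Pool.Agent.N502.TM

section

variable {H : Type} [NormedAddCommGroup H] [InnerProductSpace ℝ H]

/-- scalar products of a sum of operators -/
theorem hs_inner {A : ℕ → H →L[ℝ] H} {B : H →L[ℝ] H} (h : HasSum A B) (f g : H) :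
    HasSum (fun k => ⟪f, A k g⟫_ℝ) ⟪f, B g⟫_ℝ := by
  have h1 : HasSum (fun k => A k g) (B g) :=
    (ContinuousLinearMap.apply ℝ H g).hasSum h
  exact (innerSL ℝ f).hasSum h1

theorem pow_symm {S : H →L[ℝ] H} (hS : ∀ f g : H, ⟪S f, g⟫_ℝ = ⟪f, S g⟫_ℝ) (k : ℕ) :
    ∀ f g : H, ⟪(S ^ k) f, g⟫_ℝ = ⟪f, (S ^ k) g⟫_ℝ := by
  induction k with
  | zero => intro f g; rfl
  | succ k ih =>
    intro f g
    have h1 : (S ^ (k + 1)) f = (S ^ k) (S f) := by rw [pow_succ]; rfl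
    have h2 : (S ^ (k + 1)) g = S ((S ^ k) g) := by rw [pow_succ']; rfl
    rw [h1, h2, ih, hS]

theorem sq_nonneg' {S : H →L[ℝ] H} (hS : ∀ f g : H, ⟪S f, g⟫_ℝ = ⟪f, S g⟫_ℝ) (k : ℕ) (f : H) :
    0 ≤ ⟪f, ((S * S) ^ k) f⟫_ℝ := by
  have h1 : ((S * S) ^ k) f = (S ^ k) ((S ^ k) f) := by
    rw [(Commute.refl S).mul_pow k]
    rfl
  rw [h1, ← pow_symm hS]
  exact real_inner_self_nonneg

theorem norm_pow_le1 {T : H →L[ℝ] H} (hT : ‖T‖ ≤ 1) (k : ℕ) : ‖T ^ k‖ ≤ 1 := by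
  induction k with
  | zero => exact ContinuousLinearMap.norm_id_le
  | succ k ih =>
    rw [pow_succ]
    refine (norm_mul_le _ _).trans ?_
    calc ‖T ^ k‖ * ‖T‖ ≤ 1 * 1 := by gcongr
      _ = 1 := one_mul 1

/-- Cauchy-Schwarz for a positive form -/
theorem cs {G : H →L[ℝ] H} (hsym : ∀ f g : H, ⟪G f, g⟫_ℝ = ⟪f, G g⟫_ℝ)
    (hpos : ∀ f : H, 0 ≤ ⟪f, G f⟫_ℝ) (f g : H) :
    ⟪f, G g⟫_ℝ ^ 2 ≤ ⟪f, G f⟫_ℝ * ⟪g, G g⟫_ℝ := by
  have h1 : ∀ t : ℝ, 0 ≤ ⟪g, G g⟫_ℝ * (t * t) + 2 * ⟪f, G g⟫_ℝ * t + ⟪f, G f⟫_ℝ := by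
    intro t
    have h2 := hpos (f + t • g)
    rw [map_add, map_smul, inner_add_left, inner_add_right, inner_add_right, inner_smul_left,
      inner_smul_right, inner_smul_left, inner_smul_right] at h2
    have h3 : ⟪g, G f⟫_ℝ = ⟪f, G g⟫_ℝ := by rw [real_inner_comm, hsym]
    rw [h3] at h2
    simp only [conj_trivial] at h2
    linarith
  have h2 := discrim_le_zero h1
  unfold discrim at h2
  nlinarith

end

theorem main : S_HIL := by
  intro hC H _ _ _ S b hb0 hb1 hS hsym C C' J hconv _ _ hJ hpol g hg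
  have hTsym : ∀ f g : H, ⟪(S * S) f, g⟫_ℝ = ⟪f, (S * S) g⟫_ℝ := by
    intro f g
    have h1 : (S * S) f = S (S f) := rfl
    have h2 : (S * S) g = S (S g) := rfl
    rw [h1, h2, hsym, hsym]
  have hTn : ‖S * S‖ ≤ 1 := by
    refine (norm_mul_le _ _).trans ?_
    calc ‖S‖ * ‖S‖ ≤ 1 * 1 := by gcongr
      _ = 1 := one_mul 1
  have hTpos : ∀ (k : ℕ) (f : H), 0 ≤ ⟪f, ((S * S) ^ k) f⟫_ℝ := fun k f => sq_nonneg' hsym k f
  -- the operators
  have hnG : ∀ k : ℕ, ‖(uu k * b ^ k) • (S * S) ^ k‖ ≤ b ^ k := by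
    intro k
    have h0 : 0 ≤ b ^ k := pow_nonneg hb0 k
    rw [norm_smul, Real.norm_of_nonneg (mul_nonneg (hC.uu_nonneg k) h0)]
    calc uu k * b ^ k * ‖(S * S) ^ k‖ ≤ 1 * b ^ k * 1 := by
          gcongr
          · exact hC.uu_le k
          · exact norm_pow_le1 hTn k
      _ = b ^ k := by ring
  have hnP : ∀ k : ℕ, ‖(et (k + 1) * b ^ (k + 1)) • (S * S) ^ (k + 1)‖ ≤ b ^ k := by
    intro k
    have h0 : 0 ≤ b ^ k := pow_nonneg hb0 k
    have h1 : b ^ (k + 1) ≤ b ^ k := by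
      rw [pow_succ]
      exact mul_le_of_le_one_right h0 hb1.le
    have h2 : 0 ≤ b ^ (k + 1) := pow_nonneg hb0 _
    rw [norm_smul, Real.norm_of_nonneg (mul_nonneg (hC.et_nonneg k) h2)]
    calc et (k + 1) * b ^ (k + 1) * ‖(S * S) ^ (k + 1)‖ ≤ 1 * b ^ k * 1 := by
          gcongr
          · exact hC.et_le k
          · exact norm_pow_le1 hTn _
      _ = b ^ k := by ring
  have hgeo : Summable (fun k : ℕ => b ^ k) := summable_geometric_of_lt_one hb0 hb1
  have hsGn : Summable (fun k : ℕ => ‖(uu k * b ^ k) • (S * S) ^ k‖) :=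
    Summable.of_nonneg_of_le (fun _ => norm_nonneg _) hnG hgeo
  have hsPn : Summable (fun k : ℕ => ‖(et (k + 1) * b ^ (k + 1)) • (S * S) ^ (k + 1)‖) :=
    Summable.of_nonneg_of_le (fun _ => norm_nonneg _) hnP hgeo
  set G : H →L[ℝ] H := ∑' k : ℕ, (uu k * b ^ k) • (S * S) ^ k with hGdef
  set P : H →L[ℝ] H := ∑' k : ℕ, (et (k + 1) * b ^ (k + 1)) • (S * S) ^ (k + 1) with hPdef
  have hG : HasSum (fun k : ℕ => (uu k * b ^ k) • (S * S) ^ k) G := hsGn.of_norm.hasSum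
  have hP : HasSum (fun k : ℕ => (et (k + 1) * b ^ (k + 1)) • (S * S) ^ (k + 1)) P :=
    hsPn.of_norm.hasSum
  have hGi : ∀ f g : H, HasSum (fun k : ℕ => uu k * b ^ k * ⟪f, ((S * S) ^ k) g⟫_ℝ)
      ⟪f, G g⟫_ℝ := by
    intro f g
    refine (hs_inner hG f g).congr_fun ?_
    intro k
    rw [smul_apply, inner_smul_right]
  have hPi : ∀ f g : H, HasSum (fun k : ℕ => et (k + 1) * b ^ (k + 1) *
      ⟪f, ((S * S) ^ (k + 1)) g⟫_ℝ) ⟪f, P g⟫_ℝ := by
    intro f g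
    refine (hs_inner hP f g).congr_fun ?_
    intro k
    rw [smul_apply, inner_smul_right]
  have hen : ∀ f : H, en (S * S) b f = ⟪f, G f⟫_ℝ := fun f => (hGi f f).tsum_eq
  have hGsym : ∀ f g : H, ⟪G f, g⟫_ℝ = ⟪f, G g⟫_ℝ := by
    intro f g
    rw [real_inner_comm]
    refine (hGi g f).unique ((hGi f g).congr_fun ?_)
    intro k
    rw [real_inner_comm, pow_symm hTsym]
  have hPsym : ∀ f g : H, ⟪P f, g⟫_ℝ = ⟪f, P g⟫_ℝ := by
    intro f g
    rw [real_inner_comm]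
    refine (hPi g f).unique ((hPi f g).congr_fun ?_)
    intro k
    rw [real_inner_comm, pow_symm hTsym]
  have hGpos : ∀ f : H, 0 ≤ ⟪f, G f⟫_ℝ := fun f => (hGi f f).nonneg fun k =>
    mul_nonneg (mul_nonneg (hC.uu_nonneg k) (pow_nonneg hb0 k)) (hTpos k f)
  -- the product
  have hPG : ∀ f : H, P (G f) = G f - f := by
    have h1 : P * G = ∑' n : ℕ, (uu (n + 1) * b ^ (n + 1)) • (S * S) ^ (n + 1) := by
      rw [hPdef, hGdef, tsum_mul_tsum_eq_tsum_sum_antidiagonal_of_summable_norm hsPn hsGn]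
      refine tsum_congr fun n => ?_
      rw [Finset.Nat.sum_antidiagonal_eq_sum_range_succ (fun i j =>
        ((et (i + 1) * b ^ (i + 1)) • (S * S) ^ (i + 1)) * ((uu j * b ^ j) • (S * S) ^ j)) n,
        hC.rcr n, Finset.sum_mul, Finset.sum_smul]
      refine Finset.sum_congr rfl fun i hi => ?_
      have hi' : i ≤ n := Nat.lt_succ_iff.1 (Finset.mem_range.1 hi)
      have e1 : n + 1 = (i + 1) + (n - i) := by omega
      rw [smul_mul_smul_comm, ← pow_add, ← e1]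
      congr 1
      conv_rhs => rw [e1, pow_add]
      ring
    have h2 : G = 1 + ∑' n : ℕ, (uu (n + 1) * b ^ (n + 1)) • (S * S) ^ (n + 1) := by
      rw [hGdef, hsGn.of_norm.tsum_eq_zero_add]
      congr 1
      simp [uu]
    intro f
    have h3 : P (G f) = (P * G) f := rfl
    rw [h3, h1]
    conv_rhs => rw [h2]
    simp
  -- the quadratic form D
  have hD : ∀ u : H, ⟪u - P u, G (u - P u)⟫_ℝ = ⟪u, u⟫_ℝ - ⟪u, P u⟫_ℝ := by
    intro u
    rw [inner_sub_left, hPsym, hPG, inner_sub_right, sub_sub_cancel, inner_sub_right]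
  rcases le_or_gt J 0 with hJ0 | hJ0
  · rw [hen]
    exact hJ0.trans (hGpos g)
  -- separation
  have hKopen : IsOpen {f : H | ⟪f, G f⟫_ℝ < J} :=
    isOpen_lt (continuous_id.inner G.continuous) continuous_const
  have hKconv : Convex ℝ {f : H | ⟪f, G f⟫_ℝ < J} := by
    intro x hx y hy α β hα hβ hαβ
    simp only [Set.mem_ofPred_eq] at hx hy ⊢
    have h1 : ⟪α • x + β • y, G (α • x + β • y)⟫_ℝ =
        α * ⟪x, G x⟫_ℝ + β * ⟪y, G y⟫_ℝ - α * β * ⟪x - y, G (x - y)⟫_ℝ := by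
      have h3 : ⟪y, G x⟫_ℝ = ⟪x, G y⟫_ℝ := by rw [real_inner_comm, hGsym]
      rw [map_add, map_smul, map_smul, map_sub, inner_add_left, inner_add_right, inner_add_right,
        inner_smul_left, inner_smul_right, inner_smul_left, inner_smul_right, inner_smul_left,
        inner_smul_right, inner_smul_left, inner_smul_right, inner_sub_left, inner_sub_right,
        inner_sub_right, h3]
      simp only [conj_trivial]
      have h4 : β = 1 - α := by linarith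
      rw [h4]
      ring
    rw [h1]
    have h2 := hGpos (x - y)
    have h5 : 0 ≤ α * β * ⟪x - y, G (x - y)⟫_ℝ := by positivity
    rcases eq_or_lt_of_le hα with h6 | h6
    · have h7 : β = 1 := by linarith
      rw [← h6, h7] at h5 ⊢
      linarith
    · have h7 : α * ⟪x, G x⟫_ℝ < α * J := mul_lt_mul_of_pos_left hx h6
      have h8 : β * ⟪y, G y⟫_ℝ ≤ β * J := mul_le_mul_of_nonneg_left hy.le hβ
      have h9 : α * J + β * J = J := by rw [← add_mul, hαβ, one_mul]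
      linarith
  have hdisj : Disjoint {f : H | ⟪f, G f⟫_ℝ < J} C := by
    rw [Set.disjoint_left]
    intro f hf hfC
    have h1 := hJ f hfC
    rw [hen] at h1
    simp only [Set.mem_ofPred_eq] at hf
    linarith
  obtain ⟨φ, s, hφ1, hφ2⟩ := geometric_hahn_banach_open hKconv hKopen hconv hdisj
  set u : H := (InnerProductSpace.toDual ℝ H).symm φ with hu
  have hφ : ∀ f : H, φ f = ⟪u, f⟫_ℝ := fun f => (InnerProductSpace.toDual_symm_apply).symm
  have hs0 : 0 < s := by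
    have h1 := hφ1 0 (by simp [hJ0])
    rwa [map_zero] at h1
  obtain ⟨w, hw1, hw2, hw3⟩ := hpol u s (fun f hf => by
    rw [real_inner_comm, ← hφ]
    exact hφ2 f hf)
  -- the comparison
  set Du : ℝ := ⟪u, u⟫_ℝ - ⟪u, P u⟫_ℝ with hDu
  set Dw : ℝ := ⟪w, w⟫_ℝ - ⟪w, P w⟫_ℝ with hDw
  have hDwu : Dw ≤ Du := by
    have h1 : ⟪u, P u⟫_ℝ ≤ ⟪w, P w⟫_ℝ := hasSum_le (fun k =>
      mul_le_mul_of_nonneg_left (hw2 (k + 1) (by omega))
        (mul_nonneg (hC.et_nonneg k) (pow_nonneg hb0 _))) (hPi u u) (hPi w w)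
    rw [hDu, hDw, hw1]
    linarith
  have hDu0 : 0 ≤ Du := by
    rw [hDu, ← hD]
    exact hGpos _
  -- for `a = t (1 - P) u`
  have ha : ∀ t : ℝ, t ^ 2 * Du < J → t * Du < s := by
    intro t ht
    have h1 : ⟪t • (u - P u), G (t • (u - P u))⟫_ℝ = t ^ 2 * Du := by
      rw [map_smul, inner_smul_left, inner_smul_right, hD]
      simp only [conj_trivial]
      ring
    have h2 := hφ1 (t • (u - P u)) (by
      simp only [Set.mem_ofPred_eq]
      rw [h1]
      exact ht)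
    rw [hφ, inner_smul_right, inner_sub_right] at h2
    exact h2
  have hg1 : s ≤ ⟪g, w⟫_ℝ := hw3 g hg
  have hg2 : ⟪g, w⟫_ℝ = ⟪g, G (w - P w)⟫_ℝ := by
    rw [← hGsym, inner_sub_right, ← hPsym, hPG, inner_sub_left, sub_sub_cancel]
  have hg3 : ⟪g, w⟫_ℝ ^ 2 ≤ ⟪g, G g⟫_ℝ * Du := by
    rw [hg2]
    refine (cs hGsym hGpos g (w - P w)).trans ?_
    rw [hD]
    exact mul_le_mul_of_nonneg_left hDwu (hGpos g)
  have hg4 : s ^ 2 ≤ ⟪g, G g⟫_ℝ * Du := by
    refine le_trans ?_ hg3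
    gcongr
  have hDupos : 0 < Du := by
    rcases eq_or_lt_of_le hDu0 with h | h
    · rw [← h, mul_zero] at hg4
      nlinarith
    · exact h
  have hJs : J * Du ≤ s ^ 2 := by
    by_contra hcon
    push Not at hcon
    -- t = s / Du
    have h1 : (s / Du) ^ 2 * Du < J := by
      rw [div_pow, div_mul_eq_mul_div, div_lt_iff₀ (by positivity)]
      nlinarith
    have h2 := ha _ h1
    rw [div_mul_cancel₀ _ hDupos.ne'] at h2
    exact lt_irrefl _ h2
  rw [hen]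
  have h1 : J * Du ≤ ⟪g, G g⟫_ℝ * Du := hJs.trans hg4
  exact le_of_mul_le_mul_right h1 hDupos

end Pool.Agent.N271.TMHIL
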